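import Mathlib

/-! Project KD (MP_23b0f8_an): Kesten condition and diffraction of circle map sequences.
Definitions and task statements. -/

set_option autoImplicit false

open MeasureTheory Filter Topology Set
open scoped FourierTransform ContDiff

namespace Pool.Agent.H152R3.KD

/-! ### definitions used by the final statement -/

/-- the two-way infinite staircase of the problem -/
def IsStaircase (D γ x₀ : ℝ) (p : ℤ → ℤ × ℤ) : Prop :=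
  p 0 = (0, 0) ∧ ∀ n : ℤ, p (n + 1) - p n = if Int.fract (x₀ + n * γ) < D then (0, 1) else (1, 0)

/-- coordinate (along the unit vector of direction `(1 - D, D)`) of the orthogonal projection onto
the line spanned by `(1 - D, D)` -/
noncomputable def proj (D : ℝ) (v : ℤ × ℤ) : ℝ :=
  ((1 - D) * (v.1 : ℝ) + D * (v.2 : ℝ)) / √((1 - D) ^ 2 + D ^ 2)

/-- the projected node set `Π(H)` -/
def PiH (D : ℝ) (p : ℤ → ℤ × ℤ) : Set ℝ := proj D '' range p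

/-- `Σ_{x,y ∈ Λ ∩ [-T,T]} f (x - y) / (2 T)` -/
noncomputable def corr (Λ : Set ℝ) (f : ℝ → ℂ) (T : ℝ) : ℂ :=
  (1 / (2 * (T : ℂ))) * ∑ᶠ x ∈ Λ ∩ Icc (-T) T, ∑ᶠ y ∈ Λ ∩ Icc (-T) T, f (x - y)

/-- `η` is the autocorrelation of `Λ` (vague limit) -/
def IsAutocorr (Λ : Set ℝ) (η : Measure ℝ) : Prop :=
  IsLocallyFiniteMeasure η ∧ ∀ f : ℝ → ℂ, Continuous f → HasCompactSupport f →
    Tendsto (corr Λ f) atTop (𝓝 (∫ z, f z ∂η))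

/-- the positive measure `μ` is the Fourier transform of `η` (as a distribution) -/
def IsFourier (η μ : Measure ℝ) : Prop :=
  IsLocallyFiniteMeasure μ ∧ ∀ φ : ℝ → ℂ, ContDiff ℝ ∞ φ → HasCompactSupport φ →
    Integrable (𝓕 φ) η ∧ ∫ s, φ s ∂μ = ∫ z, 𝓕 φ z ∂η

/-- the diffraction condition: the diffraction measure has countably infinitely many atoms -/
def DiffCond (Λ : Set ℝ) : Prop := ∃ η μ : Measure ℝ, IsAutocorr Λ η ∧ IsFourier η μ ∧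
  {s : ℝ | μ {s} ≠ 0}.Countable ∧ {s : ℝ | μ {s} ≠ 0}.Infinite

/-- the Kesten condition -/
def Kesten (D γ : ℝ) : Prop := ∃ j k : ℤ, D = j * γ + k

/-! ### working layer -/

/-- indicator of a hit -/
noncomputable def hit (D γ x : ℝ) (j : ℤ) : ℤ := if Int.fract (x + j * γ) < D then 1 else 0

/-- number of hits (signed) -/
noncomputable def hh (D γ x : ℝ) (n : ℤ) : ℤ :=
  ∑ j ∈ Finset.Ico 0 n, hit D γ x j - ∑ j ∈ Finset.Ico n 0, hit D γ x j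

/-- position of the `n`-th point; gaps `a + b` (hit) and `a` (no hit) -/
noncomputable def XX (a b D γ x : ℝ) (n : ℤ) : ℝ := a * n + b * hh D γ x n

/-- the point set -/
def Lam (a b D γ x : ℝ) : Set ℝ := range (XX a b D γ x)

/-- the autocorrelation measure -/
noncomputable def eta (a b D γ : ℝ) : Measure ℝ :=
  ENNReal.ofReal (1 / (a + b * D)) •
    Measure.sum (fun k : ℤ => Measure.map (fun θ => XX a b D γ θ k) (volume.restrict (Ico (0 : ℝ) 1)))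

/-- quadratic decay -/
def Dec (f : ℝ → ℂ) : Prop := Continuous f ∧ ∃ C : ℝ, ∀ x, ‖f x‖ ≤ C / (1 + x ^ 2)

/-- convergence of the correlations for all functions with quadratic decay -/
def Conv (Λ : Set ℝ) (η : Measure ℝ) : Prop := ∀ f : ℝ → ℂ, Dec f →
  Integrable f η ∧ Tendsto (corr Λ f) atTop (𝓝 (∫ z, f z ∂η))

/-- standing hypotheses -/
structure Hyp (a b D γ : ℝ) : Prop where
  D0 : 0 < D
  D1 : D < 1
  irr : Irrational γ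
  a0 : 0 < a
  ab0 : 0 < a + b

/-! ### tasks -/

/-- TASK BAS: basic properties of `XX` -/
def TaskBAS : Prop := ∀ a b D γ x : ℝ, 0 < a → 0 < a + b →
  XX a b D γ x 0 = 0 ∧
  (∀ n : ℤ, XX a b D γ x (n + 1) = XX a b D γ x n + (a + b * hit D γ x n)) ∧
  (∀ n k : ℤ, XX a b D γ x (n + k) = XX a b D γ x n + XX a b D γ (x + n * γ) k) ∧
  (∀ n : ℤ, ∀ m : ℤ, n ≤ m → min a (a + b) * (m - n : ℤ) ≤ XX a b D γ x m - XX a b D γ x n ∧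
    XX a b D γ x m - XX a b D γ x n ≤ max a (a + b) * (m - n : ℤ)) ∧
  StrictMono (XX a b D γ x) ∧
  (∀ n, XX a b D γ (x + 1) n = XX a b D γ x n) ∧
  (∀ n, Measurable (fun θ => XX a b D γ θ n))

/-- TASK WEYL: uniform equidistribution for `g (X_k (θ))` -/
def TaskWEYL : Prop := TaskBAS → ∀ a b D γ : ℝ, Hyp a b D γ → ∀ (g : ℝ → ℂ), Continuous g → ∀ (k : ℤ),
  ∀ ε : ℝ, 0 < ε → ∃ M₀ : ℕ, ∀ M : ℕ, M₀ ≤ M → ∀ x : ℝ,
    ‖∑ j ∈ Finset.range M, g (XX a b D γ (x + j * γ) k) - M * ∫ θ in Ico (0 : ℝ) 1, g (XX a b D γ θ k)‖ ≤ ε * M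

/-- TASK LIN: `X_n ~ (a + b D) n`, uniformly in the starting point -/
def TaskLIN : Prop := TaskBAS → TaskWEYL → ∀ a b D γ : ℝ, Hyp a b D γ →
  ∀ ε : ℝ, 0 < ε → ∃ M₀ : ℕ, ∀ n : ℤ, (M₀ : ℤ) ≤ |n| → ∀ x : ℝ,
    |XX a b D γ x n - (a + b * D) * n| ≤ ε * |(n : ℝ)|

/-- TASK CORR1: reduction of `corr` to a sum over indices; `W` is the window of indices -/
def TaskCORR1 : Prop := TaskBAS → ∀ a b D γ x : ℝ, 0 < a → 0 < a + b → ∀ T : ℝ, 0 ≤ T →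
  ∃ A B : ℕ, (∀ n : ℤ, n ∈ Finset.Icc (-(A : ℤ)) B ↔ |XX a b D γ x n| ≤ T) ∧
    (Lam a b D γ x ∩ Icc (-T) T).Finite ∧
    (∀ F : ℝ → ℂ, ∑ᶠ y ∈ Lam a b D γ x ∩ Icc (-T) T, F y = ∑ n ∈ Finset.Icc (-(A : ℤ)) B, F (XX a b D γ x n)) ∧
    (∀ f : ℝ → ℂ, corr (Lam a b D γ x) f T = (1 / (2 * (T : ℂ))) *
      ∑ n ∈ Finset.Icc (-(A : ℤ)) B, ∑ m ∈ Finset.Icc (-(A : ℤ)) B, f (XX a b D γ x n - XX a b D γ x m)) ∧
    (min a (a + b)) * A ≤ T ∧ (min a (a + b)) * B ≤ T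

/-- TASK CORR2: convergence of the correlations -/
def TaskCORR2 : Prop := TaskBAS → TaskWEYL → TaskLIN → TaskCORR1 → ∀ a b D γ : ℝ, Hyp a b D γ →
  ∀ f : ℝ → ℂ, Dec f → ∀ x : ℝ, Tendsto (corr (Lam a b D γ x) f) atTop
    (𝓝 ((1 / ((a + b * D : ℝ) : ℂ)) * ∑' k : ℤ, ∫ θ in Ico (0 : ℝ) 1, f (XX a b D γ θ k)))

/-- TASK ETA: integrals against `eta`, local finiteness -/
def TaskETA : Prop := TaskBAS → ∀ a b D γ : ℝ, Hyp a b D γ →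
  IsLocallyFiniteMeasure (eta a b D γ) ∧ ∀ f : ℝ → ℂ, Dec f → Integrable f (eta a b D γ) ∧
    ∫ z, f z ∂(eta a b D γ) = (1 / ((a + b * D : ℝ) : ℂ)) * ∑' k : ℤ, ∫ θ in Ico (0 : ℝ) 1, f (XX a b D γ θ k)

/-- TASK FDEC: test functions and their Fourier transforms have quadratic decay -/
def TaskFDEC : Prop := ∀ φ : ℝ → ℂ, ContDiff ℝ ∞ φ → HasCompactSupport φ → Dec φ ∧ Dec (𝓕 φ)

/-- TASK PER: correlations of `𝓕 φ` are integrals of `φ` against the periodogram -/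
def TaskPER : Prop := ∀ (Λ : Set ℝ) (T : ℝ), 0 < T → (Λ ∩ Icc (-T) T).Finite → ∀ φ : ℝ → ℂ,
  ContDiff ℝ ∞ φ → HasCompactSupport φ → corr Λ (𝓕 φ) T = ∫ s : ℝ, φ s * ((1 / (2 * T) *
    ‖∑ᶠ x ∈ Λ ∩ Icc (-T) T, Complex.exp (-(2 * Real.pi * s * x : ℝ) * Complex.I)‖ ^ 2 : ℝ) : ℂ)

/-- TASK MU: existence of the diffraction measure (Riesz-Markov) -/
def TaskMU : Prop := TaskPER → TaskFDEC → ∀ (Λ : Set ℝ) (η : Measure ℝ),
  (∀ T : ℝ, (Λ ∩ Icc (-T) T).Finite) → Conv Λ η → ∃ μ : Measure ℝ, IsFourier η μ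

/-- TASK ATOM: large exponential sums give atoms -/
def TaskATOM : Prop := TaskPER → TaskFDEC → ∀ (Λ : Set ℝ) (μ : Measure ℝ) (s C c : ℝ),
  IsLocallyFiniteMeasure μ → 0 < C → 0 < c →
  (∀ T : ℝ, 1 ≤ T → (Λ ∩ Icc (-T) T).Finite ∧ ((Λ ∩ Icc (-T) T).ncard : ℝ) ≤ C * T) →
  (∀ φ : ℝ → ℂ, ContDiff ℝ ∞ φ → HasCompactSupport φ → Tendsto (corr Λ (𝓕 φ)) atTop (𝓝 (∫ u, φ u ∂μ))) →
  (∃ᶠ T : ℝ in atTop, c * T ≤ ‖∑ᶠ x ∈ Λ ∩ Icc (-T) T, Complex.exp (-(2 * Real.pi * s * x : ℝ) * Complex.I)‖) →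
  μ {s} ≠ 0

/-- TASK NT: the number theoretic construction -/
def TaskNT : Prop := ∃ γ : ℝ, 1 / 4 < γ ∧ γ < 1 / 2 ∧ Irrational γ ∧
  (∀ j k : ℤ, (1 + 2 * γ) / (1 + 4 * γ) ≠ j * γ + k) ∧
  ∃ (q : ℕ → ℕ) (p : ℕ → ℤ), (∀ n, 0 < (q n : ℝ) * γ - p n) ∧
    Summable (fun n => (q n : ℝ) * ((q n : ℝ) * γ - p n)) ∧
    HasSum (fun n => 2 * ((q n : ℝ) * γ - p n)) ((1 + 2 * γ) / (1 + 4 * γ))

/-- `ξ` is a parity transfer function -/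
structure IsXi (D γ : ℝ) (ξ : ℝ → ℝ) : Prop where
  meas : Measurable ξ
  val : ∀ θ, ξ θ = 1 ∨ ξ θ = -1
  per : ∀ θ, ξ (θ + 1) = ξ θ
  cob : ∀ᵐ θ, ξ (θ + γ) = (if Int.fract θ < D then -1 else 1) * ξ θ

/-- TASK COB: the parity cocycle is a coboundary -/
def TaskCOB : Prop := ∀ (γ D : ℝ) (q : ℕ → ℕ) (p : ℕ → ℤ), D < 1 → (∀ n, 0 < (q n : ℝ) * γ - p n) →
  Summable (fun n => (q n : ℝ) * ((q n : ℝ) * γ - p n)) →
  HasSum (fun n => 2 * ((q n : ℝ) * γ - p n)) D → ∃ ξ : ℝ → ℝ, IsXi D γ ξ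

/-- Fourier coefficient of `ξ` -/
noncomputable def fc (ξ : ℝ → ℝ) (t : ℤ) : ℂ :=
  ∫ θ in Ico (0 : ℝ) 1, Complex.exp (-(2 * Real.pi * t * θ : ℝ) * Complex.I) * ξ θ

/-- TASK FC: infinitely many odd Fourier coefficients do not vanish -/
def TaskFC : Prop := ∀ (γ D : ℝ) (ξ : ℝ → ℝ), 1 / 2 < D → D < 1 → IsXi D γ ξ →
  {t : ℤ | Odd t ∧ fc ξ t ≠ 0}.Infinite

/-- TASK AMP: a starting point with a large twisted sum -/
def TaskAMP : Prop := ∀ (γ D : ℝ) (ξ : ℝ → ℝ), IsXi D γ ξ → ∀ t : ℤ, fc ξ t ≠ 0 →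
  ∃ x c : ℝ, 0 < c ∧ (∀ n : ℤ, (-1 : ℝ) ^ (hh D γ x n).natAbs = ξ x * ξ (x + n * γ)) ∧
    ∃ᶠ M : ℕ in atTop, c * M ≤ ‖∑ n ∈ Finset.Icc (-(M : ℤ)) M,
      Complex.exp (-(2 * Real.pi * t * n * γ : ℝ) * Complex.I) * ξ (x + n * γ)‖

/-- TASK BRIDGE: from the twisted sum to the exponential sum over the point set -/
def TaskBRIDGE : Prop := TaskBAS → TaskLIN → TaskCORR1 → ∀ a b D γ : ℝ, Hyp a b D γ → 0 < b → a = 2 * γ * b →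
  ∀ (ξ : ℝ → ℝ), (∀ θ, ξ θ = 1 ∨ ξ θ = -1) → ∀ (t : ℤ), Odd t → ∀ x c : ℝ, 0 < c →
  (∀ n : ℤ, (-1 : ℝ) ^ (hh D γ x n).natAbs = ξ x * ξ (x + n * γ)) →
  (∃ᶠ M : ℕ in atTop, c * M ≤ ‖∑ n ∈ Finset.Icc (-(M : ℤ)) M,
      Complex.exp (-(2 * Real.pi * t * n * γ : ℝ) * Complex.I) * ξ (x + n * γ)‖) →
  ∃ c' : ℝ, 0 < c' ∧ ∃ᶠ T : ℝ in atTop, c' * T ≤ ‖∑ᶠ y ∈ Lam a b D γ x ∩ Icc (-T) T,
    Complex.exp (-(2 * Real.pi * (t / (2 * b)) * y : ℝ) * Complex.I)‖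

/-- TASK STAIR: the staircase in terms of `XX`, existence of the staircase -/
def TaskSTAIR : Prop := ∀ D γ x₀ : ℝ, 0 < D → D < 1 →
  (∃ p, IsStaircase D γ x₀ p) ∧ ∀ p, IsStaircase D γ x₀ p →
    PiH D p = Lam ((1 - D) / √((1 - D) ^ 2 + D ^ 2)) ((2 * D - 1) / √((1 - D) ^ 2 + D ^ 2)) D γ x₀

/-- TASK CNT: atoms are countable -/
def TaskCNT : Prop := ∀ μ : Measure ℝ, IsLocallyFiniteMeasure μ → {s : ℝ | μ {s} ≠ 0}.Countable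

/-- final statement for Q1 -/
def FinalQ1 : Prop := ∃ D γ : ℝ, 0 < D ∧ D < 1 ∧ Irrational D ∧ Irrational γ ∧ ¬ Kesten D γ ∧
  ∀ x₀ : ℝ, (∃ p, IsStaircase D γ x₀ p) ∧ ∀ p, IsStaircase D γ x₀ p → DiffCond (PiH D p)

end Pool.Agent.H152R3.KD
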