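import Mathlib
import Pool.Agent.H152R3.KD.Stmts

set_option autoImplicit false

open MeasureTheory Filter Topology Set

namespace Pool.Agent.H152R3.KD.AMP

lemma neg_one_pow_natAbs (h : ℤ) : (-1 : ℝ) ^ h.natAbs = (-1 : ℝ) ^ h := by
  rcases Int.natAbs_eq h with h' | h'
  · conv_rhs => rw [h', zpow_natCast]
  · conv_rhs => rw [h', zpow_neg, zpow_natCast, ← inv_pow]
    norm_num

lemma hh_zero (D γ x : ℝ) : hh D γ x 0 = 0 := by simp [hh]

lemma hh_succ (D γ x : ℝ) (n : ℤ) : hh D γ x (n + 1) = hh D γ x n + hit D γ x n := by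
  unfold hh
  rcases le_or_gt 0 n with h | h
  · have e1 : Finset.Ico 0 (n + 1) = insert n (Finset.Ico 0 n) := by
      ext j; simp only [Finset.mem_Ico, Finset.mem_insert]; omega
    have e2 : Finset.Ico (n + 1) 0 = ∅ := Finset.Ico_eq_empty (by omega)
    have e3 : Finset.Ico n 0 = ∅ := Finset.Ico_eq_empty (by omega)
    rw [e1, e2, e3, Finset.sum_insert (by simp)]
    simp only [Finset.sum_empty]
    ring
  · have e1 : Finset.Ico n 0 = insert n (Finset.Ico (n + 1) 0) := by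
      ext j; simp only [Finset.mem_Ico, Finset.mem_insert]; omega
    have e2 : Finset.Ico 0 (n + 1) = ∅ := Finset.Ico_eq_empty (by omega)
    have e3 : Finset.Ico 0 n = ∅ := Finset.Ico_eq_empty (by omega)
    rw [e1, e2, e3, Finset.sum_insert (by simp)]
    simp only [Finset.sum_empty]
    ring

lemma sgn_hit (D γ x : ℝ) (n : ℤ) :
    (-1 : ℝ) ^ (hit D γ x n) = if Int.fract (x + n * γ) < D then -1 else 1 := by
  unfold hit
  split_ifs <;> simp

lemma good (D γ : ℝ) (ξ : ℝ → ℝ) (hξ : ∀ θ, ξ θ = 1 ∨ ξ θ = -1) (x : ℝ)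
    (hx : ∀ n : ℤ, ξ (x + n * γ + γ) = (if Int.fract (x + n * γ) < D then -1 else 1) * ξ (x + n * γ)) (n : ℤ) :
    (-1 : ℝ) ^ (hh D γ x n).natAbs = ξ x * ξ (x + n * γ) := by
  have step : ∀ n : ℤ, (-1 : ℝ) ^ (hh D γ x (n + 1)) = (-1 : ℝ) ^ (hh D γ x n) *
      (if Int.fract (x + n * γ) < D then -1 else 1) := by
    intro n
    rw [hh_succ, zpow_add₀ (by norm_num), sgn_hit]
  have sq : ∀ n : ℤ, (if Int.fract (x + n * γ) < D then (-1 : ℝ) else 1) *
      (if Int.fract (x + n * γ) < D then (-1 : ℝ) else 1) = 1 := by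
    intro n; split_ifs <;> norm_num
  have ex : ∀ n : ℤ, x + ((n + 1 : ℤ) : ℝ) * γ = x + n * γ + γ := fun n => by push_cast; ring
  rw [neg_one_pow_natAbs]
  induction n using Int.induction_on with
  | zero =>
    rw [hh_zero]
    simp only [Int.cast_zero, zero_mul, add_zero, zpow_zero]
    rcases hξ x with h | h <;> rw [h] <;> norm_num
  | succ n ih =>
    rw [step, ih, ex, hx]
    ring
  | pred n ih =>
    have e1 : (-(n : ℤ) - 1) + 1 = -(n : ℤ) := by ring
    have h1 := step (-(n : ℤ) - 1)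
    have h2 := hx (-(n : ℤ) - 1)
    rw [← ex, e1] at h2
    rw [e1, ih, h2] at h1
    have h3 := sq (-(n : ℤ) - 1)
    calc (-1 : ℝ) ^ (hh D γ x (-(n : ℤ) - 1)) = (-1 : ℝ) ^ (hh D γ x (-(n : ℤ) - 1)) *
        ((if Int.fract (x + ((-(n : ℤ) - 1 : ℤ) : ℝ) * γ) < D then (-1 : ℝ) else 1) *
        (if Int.fract (x + ((-(n : ℤ) - 1 : ℤ) : ℝ) * γ) < D then (-1 : ℝ) else 1)) := by rw [h3, mul_one]
      _ = ((-1 : ℝ) ^ (hh D γ x (-(n : ℤ) - 1)) *
        (if Int.fract (x + ((-(n : ℤ) - 1 : ℤ) : ℝ) * γ) < D then (-1 : ℝ) else 1)) *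
        (if Int.fract (x + ((-(n : ℤ) - 1 : ℤ) : ℝ) * γ) < D then (-1 : ℝ) else 1) := by ring
      _ = (ξ x * ((if Int.fract (x + ((-(n : ℤ) - 1 : ℤ) : ℝ) * γ) < D then (-1 : ℝ) else 1) *
          ξ (x + ((-(n : ℤ) - 1 : ℤ) : ℝ) * γ))) *
        (if Int.fract (x + ((-(n : ℤ) - 1 : ℤ) : ℝ) * γ) < D then (-1 : ℝ) else 1) := by rw [← h1]
      _ = ξ x * ξ (x + ((-(n : ℤ) - 1 : ℤ) : ℝ) * γ) * ((if Int.fract (x + ((-(n : ℤ) - 1 : ℤ) : ℝ) * γ) < D then (-1 : ℝ) else 1) *
        (if Int.fract (x + ((-(n : ℤ) - 1 : ℤ) : ℝ) * γ) < D then (-1 : ℝ) else 1)) := by ring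
      _ = _ := by rw [h3, mul_one]

lemma shift_int (h : ℝ → ℂ) (hp : Function.Periodic h 1) (c : ℝ) :
    ∫ θ in Ico (0:ℝ) 1, h (θ + c) = ∫ θ in Ico (0:ℝ) 1, h θ := by
  rw [integral_Ico_eq_integral_Ioc, integral_Ico_eq_integral_Ioc,
    ← intervalIntegral.integral_of_le zero_le_one, ← intervalIntegral.integral_of_le zero_le_one,
    intervalIntegral.integral_comp_add_right]
  have := hp.intervalIntegral_add_eq c 0
  rw [zero_add] at this ⊢
  rw [add_comm 1 c, this]

end AMP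

open AMP in
theorem taskAMP : TaskAMP := by
  intro γ D ξ hξ t ht
  by_contra hcon
  push Not at hcon
  -- good points
  have hG : ∀ᵐ x : ℝ, ∀ n : ℤ, ξ (x + n * γ + γ) = (if Int.fract (x + n * γ) < D then -1 else 1) * ξ (x + n * γ) := by
    rw [ae_all_iff]
    intro n
    exact (measurePreserving_add_right volume ((n : ℝ) * γ)).quasiMeasurePreserving.ae hξ.cob
  set h : ℝ → ℂ := fun y => Complex.exp (-(2 * Real.pi * t * y : ℝ) * Complex.I) * ξ y with hh_def
  have hm : Measurable h := by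
    refine Measurable.mul ?_ (Complex.measurable_ofReal.comp hξ.meas)
    fun_prop
  have hnorm : ∀ y, ‖h y‖ = 1 := by
    intro y
    rw [hh_def]
    simp only [norm_mul]
    rw [show (-((2 * Real.pi * t * y : ℝ) : ℂ)) * Complex.I = ((-(2 * Real.pi * t * y) : ℝ) : ℂ) * Complex.I by push_cast; ring,
      Complex.norm_exp_ofReal_mul_I, one_mul]
    rcases hξ.val y with h1 | h1 <;> rw [h1] <;> simp
  have hper : Function.Periodic h 1 := by
    intro y
    simp only [hh_def]
    rw [hξ.per]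
    congr 1
    rw [Complex.exp_eq_exp_iff_exists_int]
    refine ⟨-t, ?_⟩
    push_cast
    ring
  set F : ℕ → ℝ → ℂ := fun M x => (∑ n ∈ Finset.Icc (-(M : ℤ)) M, h (x + n * γ)) / M with hF
  have hFA : ∀ M x, F M x = Complex.exp (-(2 * Real.pi * t * x : ℝ) * Complex.I) *
      (∑ n ∈ Finset.Icc (-(M : ℤ)) M, Complex.exp (-(2 * Real.pi * t * n * γ : ℝ) * Complex.I) * ξ (x + n * γ)) / M := by
    intro M x
    simp only [hF, hh_def]
    rw [Finset.mul_sum]
    congr 1
    refine Finset.sum_congr rfl fun n _ => ?_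
    rw [← mul_assoc, ← Complex.exp_add]
    congr 2
    push_cast
    ring
  have hbound : ∀ M x, ‖F M x‖ ≤ 3 := by
    intro M x
    simp only [hF]
    rw [norm_div, Complex.norm_natCast]
    rcases Nat.eq_zero_or_pos M with h0 | h0
    · subst h0; simp
    · have hM : (1 : ℝ) ≤ M := by exact_mod_cast h0
      rw [div_le_iff₀ (by linarith)]
      refine (norm_sum_le _ _).trans ?_
      simp only [hnorm, Finset.sum_const, nsmul_eq_mul, mul_one, Int.card_Icc]
      have : (((M : ℤ) + 1 - (-(M : ℤ))).toNat : ℝ) = 2 * M + 1 := by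
        have : ((M : ℤ) + 1 - (-(M : ℤ))).toNat = 2 * M + 1 := by omega
        rw [this]; push_cast; ring
      rw [this]; linarith
  have hlim : ∀ᵐ x ∂(volume.restrict (Ico (0:ℝ) 1)), Tendsto (fun M => F M x) atTop (𝓝 0) := by
    refine ae_restrict_of_ae ?_
    filter_upwards [hG] with x hx
    rw [tendsto_zero_iff_norm_tendsto_zero]
    rw [Metric.tendsto_atTop]
    intro ε hε
    have h1 := hcon x ε hε (good D γ ξ hξ.val x hx)
    rw [eventually_atTop] at h1
    obtain ⟨N, hN⟩ := h1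
    refine ⟨max N 1, fun M hM => ?_⟩
    have h2 := hN M ((le_max_left _ _).trans hM)
    have h3 : (1 : ℝ) ≤ M := by exact_mod_cast (le_max_right _ _).trans hM
    rw [dist_zero_right, norm_norm, hFA, norm_div, norm_mul, Complex.norm_natCast,
      show (-((2 * Real.pi * t * x : ℝ) : ℂ)) * Complex.I = ((-(2 * Real.pi * t * x) : ℝ) : ℂ) * Complex.I by push_cast; ring,
      Complex.norm_exp_ofReal_mul_I, one_mul, div_lt_iff₀ (by linarith)]
    exact h2
  have hDCT := tendsto_integral_of_dominated_convergence (μ := volume.restrict (Ico (0:ℝ) 1)) (F := F) (f := fun _ => 0)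
    (fun _ => 3) (fun M => by
      refine Measurable.aestronglyMeasurable ?_
      simp only [hF]
      refine Measurable.div_const ?_ _
      refine Finset.measurable_sum _ fun n _ => hm.comp (measurable_id.add_const _))
    (by simp) (fun M => Eventually.of_forall fun x => hbound M x) hlim
  have hint : ∀ M : ℕ, 1 ≤ M → ∫ x in Ico (0:ℝ) 1, F M x = ((2 * M + 1 : ℝ) / M : ℝ) * fc ξ t := by
    intro M hM
    simp only [hF]
    rw [integral_div, integral_finsetSum]
    · have e1 : ∀ n : ℤ, ∫ x in Ico (0:ℝ) 1, h (x + n * γ) = fc ξ t := fun n => shift_int h hper _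
      simp only [e1, Finset.sum_const, nsmul_eq_mul, Int.card_Icc]
      have : ((M : ℤ) + 1 - (-(M : ℤ))).toNat = 2 * M + 1 := by omega
      rw [this]; push_cast; ring
    · intro n _
      refine Integrable.mono' (g := fun _ => (1 : ℝ)) (by simp) ?_ ?_
      · exact (hm.comp (measurable_id.add_const _)).aestronglyMeasurable
      · exact Eventually.of_forall fun x => (hnorm _).le
  rw [integral_zero] at hDCT
  have h0 : 0 < ‖fc ξ t‖ := norm_pos_iff.2 ht
  obtain ⟨N, hN⟩ := Metric.tendsto_atTop.1 hDCT ‖fc ξ t‖ h0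
  have h1 := hN (max N 1) (le_max_left _ _)
  rw [dist_zero_right, hint _ (le_max_right _ _), norm_mul, Complex.norm_real, Real.norm_eq_abs] at h1
  have h3 : (1 : ℝ) ≤ (max N 1 : ℕ) := by exact_mod_cast le_max_right N 1
  have h4 : (1 : ℝ) ≤ |(2 * ((max N 1 : ℕ) : ℝ) + 1) / ((max N 1 : ℕ) : ℝ)| := by
    refine le_trans ?_ (le_abs_self _)
    rw [le_div_iff₀ (by linarith)]
    linarith
  nlinarith

end Pool.Agent.H152R3.KD
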