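import Pool.Agent.H152R3.KD.Stmts

set_option autoImplicit false

open MeasureTheory Filter Topology Set
open scoped FourierTransform ContDiff

namespace Pool.Agent.H152R3.KD

theorem dec_of_compactSupport (f : ℝ → ℂ) (hf : Continuous f) (hs : HasCompactSupport f) : Dec f := by
  refine ⟨hf, ?_⟩
  have hg : Continuous (fun x : ℝ => ((1 + x ^ 2 : ℝ) : ℂ) * f x) := by fun_prop
  have hgs : HasCompactSupport (fun x : ℝ => ((1 + x ^ 2 : ℝ) : ℂ) * f x) := hs.mul_left
  obtain ⟨C, hC⟩ := hg.bounded_above_of_compact_support hgs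
  refine ⟨C, fun x => ?_⟩
  have hpos : 0 < 1 + x ^ 2 := by positivity
  rw [le_div_iff₀ hpos]
  have := hC x
  rw [norm_mul, Complex.norm_real, Real.norm_of_nonneg hpos.le] at this
  linarith [mul_comm (1 + x ^ 2) ‖f x‖]

theorem finalQ1 (hBAS : TaskBAS) (hWEYL : TaskWEYL) (hLIN : TaskLIN) (hCORR1 : TaskCORR1)
    (hCORR2 : TaskCORR2) (hETA : TaskETA) (hFDEC : TaskFDEC) (hPER : TaskPER) (hMU : TaskMU)
    (hATOM : TaskATOM) (hNT : TaskNT) (hCOB : TaskCOB) (hFC : TaskFC) (hAMP : TaskAMP)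
    (hBRIDGE : TaskBRIDGE) (hSTAIR : TaskSTAIR) (hCNT : TaskCNT) : FinalQ1 := by
  have hLIN' := hLIN hBAS hWEYL
  obtain ⟨γ, hγ1, hγ2, hirr, hK, q, p, hpos, hsum, hD⟩ := hNT
  set D : ℝ := (1 + 2 * γ) / (1 + 4 * γ) with hDdef
  have h4 : 0 < 1 + 4 * γ := by linarith
  have hD1 : D < 1 := by rw [hDdef, div_lt_one h4]; linarith
  have hDh : 1 / 2 < D := by rw [hDdef, lt_div_iff₀ h4]; linarith
  have hD0 : 0 < D := by linarith
  have hrel : 1 - D = 2 * γ * (2 * D - 1) := by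
    rw [hDdef]; field_simp; ring
  have hDirr : Irrational D := by
    rintro ⟨r, hr⟩
    apply hirr
    have h2 : (2 : ℝ) * D - 1 ≠ 0 := by linarith
    refine ⟨(1 - r) / (2 * (2 * r - 1)), ?_⟩
    push_cast
    rw [hr, hrel]
    field_simp
  have hNpos : 0 < √((1 - D) ^ 2 + D ^ 2) := Real.sqrt_pos.mpr (by positivity)
  set N : ℝ := √((1 - D) ^ 2 + D ^ 2) with hN
  set a : ℝ := (1 - D) / N with ha
  set b : ℝ := (2 * D - 1) / N with hb
  have ha0 : 0 < a := div_pos (by linarith) hNpos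
  have hb0 : 0 < b := div_pos (by linarith) hNpos
  have hab : a = 2 * γ * b := by
    rw [ha, hb, hrel]; ring
  have hyp : Hyp a b D γ := ⟨hD0, hD1, hirr, ha0, by positivity⟩
  obtain ⟨ξ, hξ⟩ := hCOB γ D q p hD1 hpos hsum hD
  obtain ⟨hηlf, hη⟩ := hETA hBAS a b D γ hyp
  have hconv : ∀ x : ℝ, Conv (Lam a b D γ x) (eta a b D γ) := by
    intro x f hf
    refine ⟨(hη f hf).1, ?_⟩
    rw [(hη f hf).2]
    exact hCORR2 hBAS hWEYL hLIN hCORR1 a b D γ hyp f hf x
  have hfin : ∀ x T : ℝ, (Lam a b D γ x ∩ Icc (-T) T).Finite := by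
    intro x T
    rcases le_or_gt 0 T with hT | hT
    · obtain ⟨A, B, _, h, _⟩ := hCORR1 hBAS a b D γ x ha0 hyp.ab0 T hT
      exact h
    · have : Icc (-T) T = ∅ := Icc_eq_empty (by linarith)
      rw [this, inter_empty]
      exact finite_empty
  obtain ⟨μ, hμ⟩ := hMU hPER hFDEC (Lam a b D γ 0) (eta a b D γ) (hfin 0) (hconv 0)
  have hatoms : {s : ℝ | μ {s} ≠ 0}.Infinite := by
    have hinf := hFC γ D ξ hDh hD1 hξ
    have hinj : Function.Injective (fun t : ℤ => (t : ℝ) / (2 * b)) := by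
      intro t t' htt
      have h2b : (2 * b) ≠ 0 := by positivity
      have := (div_left_inj' h2b).mp htt
      exact_mod_cast this
    refine (hinf.image hinj.injOn).mono ?_
    rintro _ ⟨t, ⟨hodd, hfc⟩, rfl⟩
    obtain ⟨x, c, hc, hpar, hfreq⟩ := hAMP γ D ξ hξ t hfc
    obtain ⟨c', hc', hfreq'⟩ := hBRIDGE hBAS hLIN hCORR1 a b D γ hyp hb0 hab ξ hξ.val t hodd x c hc
      hpar hfreq
    have hm : 0 < min a (a + b) := lt_min ha0 hyp.ab0
    refine hATOM hPER hFDEC (Lam a b D γ x) μ (t / (2 * b)) (2 / min a (a + b) + 1) c' hμ.1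
      (by positivity) hc' ?_ ?_ hfreq'
    · intro T hT
      obtain ⟨A, B, h1, h2, h3, h4', h5, h6⟩ := hCORR1 hBAS a b D γ x ha0 hyp.ab0 T (by linarith)
      refine ⟨h2, ?_⟩
      have h7 := h3 (fun _ => 1)
      rw [finsum_mem_eq_finite_toFinset_sum _ h2, Finset.sum_const, nsmul_eq_mul, mul_one,
        ← Set.ncard_eq_toFinset_card _ h2] at h7
      have h8 : ((Lam a b D γ x ∩ Icc (-T) T).ncard : ℝ) = (A : ℝ) + B + 1 := by
        have h9 : (((Lam a b D γ x ∩ Icc (-T) T).ncard : ℕ) : ℂ) = ((A + B + 1 : ℕ) : ℂ) := by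
          rw [h7]
          simp only [Finset.sum_const, Int.card_Icc, nsmul_eq_mul, mul_one]
          congr 1
          omega
        have h10 : (Lam a b D γ x ∩ Icc (-T) T).ncard = A + B + 1 := by exact_mod_cast h9
        rw [h10]; push_cast; ring
      rw [h8]
      have hA : (A : ℝ) ≤ T / min a (a + b) := by
        rw [le_div_iff₀ hm]; linarith
      have hB : (B : ℝ) ≤ T / min a (a + b) := by
        rw [le_div_iff₀ hm]; linarith
      have : (2 / min a (a + b) + 1) * T = T / min a (a + b) + T / min a (a + b) + T := by ring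
      rw [this]
      linarith
    · intro φ hφ hφs
      rw [(hμ.2 φ hφ hφs).2]
      exact (hconv x (𝓕 φ) (hFDEC φ hφ hφs).2).2
  refine ⟨D, γ, hD0, hD1, hDirr, hirr, ?_, ?_⟩
  · rintro ⟨j, k, hjk⟩
    exact hK j k hjk
  · intro x₀
    obtain ⟨hex, hall⟩ := hSTAIR D γ x₀ hD0 hD1
    refine ⟨hex, ?_⟩
    intro p' hp'
    rw [hall p' hp']
    refine ⟨eta a b D γ, μ, ⟨hηlf, ?_⟩, hμ, hCNT μ hμ.1, hatoms⟩
    intro f hf hfs
    exact (hconv x₀ f (dec_of_compactSupport f hf hfs)).2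

end Pool.Agent.H152R3.KD
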