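import Pool.Agent.H152R3.KD.Stmts

set_option autoImplicit false

open MeasureTheory Filter Topology Set

namespace Pool.Agent.H152R3.KD.BRIDGE

open Pool.Agent.H152R3.KD

/-- difference of the sums over two windows -/
theorem diff_le (w : ℤ → ℂ) (hw : ∀ n, ‖w n‖ ≤ 1) (A B M : ℕ) (r : ℝ)
    (hA : |(A : ℝ) - M| ≤ r) (hB : |(B : ℝ) - M| ≤ r) :
    ‖∑ n ∈ Finset.Icc (-(M : ℤ)) M, w n‖ - 2 * r ≤ ‖∑ n ∈ Finset.Icc (-(A : ℤ)) B, w n‖ := by
  set s := Finset.Icc (-(M : ℤ)) M with hs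
  set t := Finset.Icc (-(A : ℤ)) (B : ℤ) with ht
  have h1 : ∑ x ∈ s \ t, w x - ∑ x ∈ t \ s, w x = ∑ x ∈ s, w x - ∑ x ∈ t, w x :=
    Finset.sum_sdiff_sub_sum_sdiff
  have hn : ∀ u : Finset ℤ, ‖∑ x ∈ u, w x‖ ≤ (u.card : ℝ) := by
    intro u
    refine (norm_sum_le _ _).trans ?_
    refine (Finset.sum_le_sum (fun x _ => hw x)).trans ?_
    simp
  have h2 : (s \ t) ⊆ Finset.Ico (-(M : ℤ)) (-(A : ℤ)) ∪ Finset.Ioc (B : ℤ) M := by
    intro n hn'
    simp only [hs, ht, Finset.mem_sdiff, Finset.mem_Icc, Finset.mem_union, Finset.mem_Ico,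
      Finset.mem_Ioc] at hn' ⊢
    omega
  have h3 : (t \ s) ⊆ Finset.Ico (-(A : ℤ)) (-(M : ℤ)) ∪ Finset.Ioc (M : ℤ) B := by
    intro n hn'
    simp only [hs, ht, Finset.mem_sdiff, Finset.mem_Icc, Finset.mem_union, Finset.mem_Ico,
      Finset.mem_Ioc] at hn' ⊢
    omega
  have c2 : (s \ t).card ≤ (M - A) + (M - B) := by
    refine (Finset.card_le_card h2).trans ((Finset.card_union_le _ _).trans ?_)
    rw [Int.card_Ico, Int.card_Ioc]
    omega
  have c3 : (t \ s).card ≤ (A - M) + (B - M) := by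
    refine (Finset.card_le_card h3).trans ((Finset.card_union_le _ _).trans ?_)
    rw [Int.card_Ico, Int.card_Ioc]
    omega
  have c4 : (((s \ t).card : ℝ) + ((t \ s).card : ℝ)) ≤ 2 * r := by
    have e1 : (((M - A : ℕ) : ℝ) + ((A - M : ℕ) : ℝ)) ≤ r := by
      rcases le_total A M with h | h
      · rw [Nat.cast_sub h, Nat.sub_eq_zero_of_le h]
        have := abs_le.1 hA
        push_cast
        linarith
      · rw [Nat.cast_sub h, Nat.sub_eq_zero_of_le h]
        have := abs_le.1 hA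
        push_cast
        linarith
    have e2 : (((M - B : ℕ) : ℝ) + ((B - M : ℕ) : ℝ)) ≤ r := by
      rcases le_total B M with h | h
      · rw [Nat.cast_sub h, Nat.sub_eq_zero_of_le h]
        have := abs_le.1 hB
        push_cast
        linarith
      · rw [Nat.cast_sub h, Nat.sub_eq_zero_of_le h]
        have := abs_le.1 hB
        push_cast
        linarith
    have e3 : ((s \ t).card : ℝ) ≤ ((M - A : ℕ) : ℝ) + ((M - B : ℕ) : ℝ) := by exact_mod_cast c2
    have e4 : ((t \ s).card : ℝ) ≤ ((A - M : ℕ) : ℝ) + ((B - M : ℕ) : ℝ) := by exact_mod_cast c3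
    linarith
  have h4 : ‖∑ x ∈ s, w x‖ ≤ ‖∑ x ∈ t, w x‖ + ‖∑ x ∈ s \ t, w x - ∑ x ∈ t \ s, w x‖ := by
    rw [h1]
    have := norm_add_le (∑ x ∈ t, w x) (∑ x ∈ s, w x - ∑ x ∈ t, w x)
    rwa [add_sub_cancel] at this
  have h5 := norm_sub_le (∑ x ∈ s \ t, w x) (∑ x ∈ t \ s, w x)
  have h6 := hn (s \ t)
  have h7 := hn (t \ s)
  linarith

/-- pure comparison: the window of indices is close to `[-M, M]` -/
theorem window {lam ε δ K : ℝ} (hlam : 0 < lam) (hδ : 0 < δ) (hε : ε = lam * δ / (1 + δ))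
    (X : ℤ → ℝ) (sg : ℤ) (hsg : sg = 1 ∨ sg = -1)
    (M₀ : ℕ) (hX : ∀ n : ℤ, (M₀ : ℤ) ≤ |n| → |X n - lam * n| ≤ ε * |(n : ℝ)|)
    (hK : ∀ n : ℤ, |X n| ≤ K * |(n : ℝ)|) (hK0 : 0 < K) (M : ℕ) (hM : (M₀ : ℝ) ≤ M)
    (hM2 : (M₀ : ℝ) * K < lam * M) (A : ℕ) (h1 : |X (sg * A)| ≤ lam * M)
    (h2 : lam * M < |X (sg * (A + 1))|) : |(A : ℝ) - M| ≤ δ * M + 1 := by
  have hd1 : 0 < 1 + δ := by linarith
  have hε0 : 0 < ε := by rw [hε]; positivity
  have hle : lam - ε = lam / (1 + δ) := by rw [hε]; field_simp; ring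
  have hs1 : |(sg : ℝ)| = 1 := by
    rcases hsg with h | h <;> simp [h]
  have hs1' : |sg| = 1 := by
    rcases hsg with h | h <;> simp [h]
  have hMn : (0 : ℝ) ≤ M := Nat.cast_nonneg _
  rw [abs_le]
  constructor
  · -- lower bound
    have hb := hK (sg * (A + 1))
    have e1 : |((sg * ((A : ℤ) + 1) : ℤ) : ℝ)| = (A : ℝ) + 1 := by
      push_cast
      rw [abs_mul, hs1, one_mul, abs_of_nonneg (by positivity)]
    rw [e1] at hb
    have hlt : (M₀ : ℝ) < (A : ℝ) + 1 := by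
      have : (M₀ : ℝ) * K < K * ((A : ℝ) + 1) := by linarith
      nlinarith
    have hge : (M₀ : ℤ) ≤ |sg * ((A : ℤ) + 1)| := by
      rw [abs_mul, hs1', one_mul, abs_of_nonneg (by positivity)]
      have : (M₀ : ℝ) < ((A + 1 : ℕ) : ℝ) := by push_cast; exact hlt
      have := Nat.cast_lt.1 this
      omega
    have h3 := hX _ hge
    rw [e1] at h3
    have h4 : |X (sg * (A + 1))| ≤ (lam + ε) * ((A : ℝ) + 1) := by
      have h5 : |X (sg * (A + 1))| ≤ |X (sg * (A + 1)) - lam * ((sg * ((A : ℤ) + 1) : ℤ) : ℝ)| +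
          |lam * ((sg * ((A : ℤ) + 1) : ℤ) : ℝ)| := by
        have := abs_add_le (X (sg * (A + 1)) - lam * ((sg * ((A : ℤ) + 1) : ℤ) : ℝ))
          (lam * ((sg * ((A : ℤ) + 1) : ℤ) : ℝ))
        rwa [sub_add_cancel] at this
      rw [abs_mul lam, e1, abs_of_pos hlam] at h5
      linarith
    have h6 : lam * M < (lam + ε) * ((A : ℝ) + 1) := lt_of_lt_of_le h2 h4
    have h7 : (lam + ε) * (1 + δ) = lam * (1 + 2 * δ) := by
      rw [hε]; field_simp; ring
    have h8 : lam * M * (1 + δ) < lam * (1 + 2 * δ) * ((A : ℝ) + 1) := by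
      have := mul_lt_mul_of_pos_right h6 hd1
      calc lam * M * (1 + δ) < (lam + ε) * ((A : ℝ) + 1) * (1 + δ) := this
        _ = (lam + ε) * (1 + δ) * ((A : ℝ) + 1) := by ring
        _ = _ := by rw [h7]
    have h9 : M * (1 + δ) < (1 + 2 * δ) * ((A : ℝ) + 1) := by
      have e : lam * (M * (1 + δ)) < lam * ((1 + 2 * δ) * ((A : ℝ) + 1)) := by linarith
      exact lt_of_mul_lt_mul_left e hlam.le
    by_contra hcon
    push Not at hcon
    have h10 : (A : ℝ) + 1 < M * (1 - δ) := by linarith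
    have h11 : (1 + 2 * δ) * ((A : ℝ) + 1) < (1 + 2 * δ) * (M * (1 - δ)) :=
      mul_lt_mul_of_pos_left h10 (by linarith)
    nlinarith [mul_nonneg hMn (sq_nonneg δ)]
  · -- upper bound
    by_cases hAM : (A : ℝ) ≤ M
    · nlinarith
    · push Not at hAM
      have hge : (M₀ : ℤ) ≤ |sg * (A : ℤ)| := by
        rw [abs_mul, hs1', one_mul, abs_of_nonneg (by positivity)]
        have : (M₀ : ℝ) < (A : ℝ) := by linarith
        have := Nat.cast_lt.1 this
        omega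
      have e1 : |((sg * (A : ℤ) : ℤ) : ℝ)| = (A : ℝ) := by
        push_cast
        rw [abs_mul, hs1, one_mul, abs_of_nonneg (by positivity)]
      have h3 := hX _ hge
      rw [e1] at h3
      have h4 : (lam - ε) * (A : ℝ) ≤ lam * M := by
        have h5 : |lam * ((sg * (A : ℤ) : ℤ) : ℝ)| ≤ |X (sg * A)| +
            |X (sg * A) - lam * ((sg * (A : ℤ) : ℤ) : ℝ)| := by
          have := abs_sub (X (sg * A)) (X (sg * A) - lam * ((sg * (A : ℤ) : ℤ) : ℝ))
          rwa [sub_sub_cancel] at this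
        rw [abs_mul lam, e1, abs_of_pos hlam] at h5
        linarith
      rw [hle] at h4
      have h5 : (A : ℝ) ≤ M * (1 + δ) := by
        have h6 := mul_le_mul_of_nonneg_right h4 hd1.le
        have h7 : lam / (1 + δ) * (A : ℝ) * (1 + δ) = lam * A := by field_simp
        rw [h7] at h6
        have e : lam * (A : ℝ) ≤ lam * (M * (1 + δ)) := by linarith
        exact le_of_mul_le_mul_left e hlam
      linarith

theorem taskBRIDGE (hW : TaskWEYL) : TaskBRIDGE := by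
  intro hBAS hLIN hCORR1 a b D γ hyp hb hab ξ hξ t ht x c hc hpar hfreq
  obtain ⟨hX0, -, -, hinc, -, -, -⟩ := hBAS a b D γ x hyp.a0 hyp.ab0
  set lam : ℝ := a + b * D with hlam
  have hlam0 : 0 < lam := by
    have h1 := hyp.a0
    have h2 := hyp.D0
    positivity
  set δ : ℝ := c / 8 with hδ
  have hδ0 : 0 < δ := by positivity
  set ε : ℝ := lam * δ / (1 + δ) with hε
  have hε0 : 0 < ε := by positivity
  obtain ⟨M₀, hM₀⟩ := hLIN hBAS hW a b D γ hyp ε hε0
  set K : ℝ := max a (a + b) with hK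
  have hK0 : 0 < K := lt_max_of_lt_left hyp.a0
  have hm0 : 0 < min a (a + b) := lt_min hyp.a0 hyp.ab0
  have hKb : ∀ n : ℤ, |XX a b D γ x n| ≤ K * |(n : ℝ)| := by
    intro n
    rcases le_total 0 n with h | h
    · obtain ⟨h1, h2⟩ := hinc 0 n h
      rw [hX0] at h1 h2
      push_cast at h1 h2
      have hn : (0 : ℝ) ≤ n := by exact_mod_cast h
      have h3 : 0 ≤ min a (a + b) * ((n : ℝ) - 0) := by
        rw [sub_zero]; positivity
      rw [abs_of_nonneg hn, abs_of_nonneg (by linarith)]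
      linarith
    · obtain ⟨h1, h2⟩ := hinc n 0 h
      rw [hX0] at h1 h2
      push_cast at h1 h2
      have hn : (n : ℝ) ≤ 0 := by exact_mod_cast h
      have h3 : 0 ≤ min a (a + b) * (0 - (n : ℝ)) := by
        apply mul_nonneg hm0.le
        linarith
      rw [abs_of_nonpos hn, abs_of_nonpos (by linarith)]
      linarith
  refine ⟨c / (2 * lam), by positivity, ?_⟩
  -- the point sums as twisted sums
  have hterm : ∀ n : ℤ, Complex.exp (-(2 * Real.pi * (t / (2 * b)) * (XX a b D γ x n) : ℝ) * Complex.I) =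
      (ξ x : ℂ) * (Complex.exp (-(2 * Real.pi * t * n * γ : ℝ) * Complex.I) * ξ (x + n * γ)) := by
    intro n
    have h1 : 2 * Real.pi * (t / (2 * b)) * (XX a b D γ x n) =
        2 * Real.pi * t * n * γ + Real.pi * ((t * hh D γ x n : ℤ) : ℝ) := by
      unfold XX
      rw [hab]
      push_cast
      field_simp
    have h2 : Complex.exp (-((Real.pi * ((t * hh D γ x n : ℤ) : ℝ) : ℝ) : ℂ) * Complex.I) =
        ((-1 : ℝ) ^ (hh D γ x n).natAbs : ℝ) := by
      have h3 : (-((Real.pi * ((t * hh D γ x n : ℤ) : ℝ) : ℝ) : ℂ) * Complex.I) =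
          ((-(t * hh D γ x n) : ℤ) : ℂ) * (Real.pi * Complex.I) := by
        push_cast; ring
      rw [h3, Complex.exp_int_mul, Complex.exp_pi_mul_I]
      have h4 : ((-1 : ℂ) ^ (-(t * hh D γ x n))) = (((-1 : ℝ) ^ (hh D γ x n).natAbs : ℝ) : ℂ) := by
        rcases Int.even_or_odd (hh D γ x n) with h | h
        · rw [Even.neg_one_zpow (by exact (h.mul_left t).neg), Even.neg_one_pow (by rwa [Int.natAbs_even])]
          simp
        · rw [Odd.neg_one_zpow (by exact (ht.mul h).neg), Odd.neg_one_pow (by rwa [Int.natAbs_odd])]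
          simp
      exact h4
    rw [h1]
    have h5 : (-((2 * Real.pi * t * n * γ + Real.pi * ((t * hh D γ x n : ℤ) : ℝ) : ℝ) : ℂ) * Complex.I) =
        (-((2 * Real.pi * t * n * γ : ℝ) : ℂ) * Complex.I) +
          (-((Real.pi * ((t * hh D γ x n : ℤ) : ℝ) : ℝ) : ℂ) * Complex.I) := by
      push_cast; ring
    rw [h5, Complex.exp_add, h2, hpar n]
    push_cast
    ring
  set w : ℤ → ℂ := fun n => Complex.exp (-(2 * Real.pi * t * n * γ : ℝ) * Complex.I) * ξ (x + n * γ)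
    with hw
  have hxi : ∀ θ, ‖(ξ θ : ℂ)‖ = 1 := by
    intro θ
    rcases hξ θ with h | h <;> simp [h]
  have hw1 : ∀ n, ‖w n‖ ≤ 1 := by
    intro n
    simp only [hw]
    rw [norm_mul, hxi, mul_one]
    have : (-((2 * Real.pi * t * n * γ : ℝ) : ℂ) * Complex.I) =
      ((-(2 * Real.pi * t * n * γ) : ℝ) : ℂ) * Complex.I := by push_cast; ring
    rw [this, Complex.norm_exp_ofReal_mul_I]
  have hev : ∀ᶠ M : ℕ in atTop, (M₀ : ℝ) ≤ M ∧ (M₀ : ℝ) * K < lam * M ∧ 8 / c ≤ M := by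
    have h1 : ∀ᶠ M : ℕ in atTop, (M₀ : ℝ) ≤ M :=
      (tendsto_natCast_atTop_atTop (R := ℝ)).eventually_ge_atTop _
    have h2 : ∀ᶠ M : ℕ in atTop, (M₀ : ℝ) * K / lam < M :=
      (tendsto_natCast_atTop_atTop (R := ℝ)).eventually_gt_atTop _
    have h3 : ∀ᶠ M : ℕ in atTop, 8 / c ≤ (M : ℝ) :=
      (tendsto_natCast_atTop_atTop (R := ℝ)).eventually_ge_atTop _
    filter_upwards [h1, h2, h3] with M h1 h2 h3
    refine ⟨h1, ?_, h3⟩
    rw [div_lt_iff₀ hlam0] at h2
    linarith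
  have htend : Tendsto (fun M : ℕ => lam * (M : ℝ)) atTop atTop :=
    (tendsto_natCast_atTop_atTop (R := ℝ)).const_mul_atTop hlam0
  refine htend.frequently ?_
  refine (hfreq.and_eventually hev).mono ?_
  rintro M ⟨hM, hM1, hM2, hM3⟩
  have hMn : (0 : ℝ) ≤ M := Nat.cast_nonneg _
  have hT : 0 ≤ lam * (M : ℝ) := by positivity
  obtain ⟨A, B, hW1, hfin, hsum, -, -, -⟩ := hCORR1 hBAS a b D γ x hyp.a0 hyp.ab0 (lam * M) hT
  have hsum' := hsum (fun y => Complex.exp (-(2 * Real.pi * (t / (2 * b)) * y : ℝ) * Complex.I))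
  rw [hsum', Finset.sum_congr rfl (fun n _ => hterm n), ← Finset.mul_sum, norm_mul, hxi, one_mul]
  have hlin : ∀ n : ℤ, (M₀ : ℤ) ≤ |n| → |XX a b D γ x n - lam * n| ≤ ε * |(n : ℝ)| :=
    fun n hn => hM₀ n hn x
  have hA : |(A : ℝ) - M| ≤ δ * M + 1 := by
    refine window hlam0 hδ0 hε (XX a b D γ x) (-1) (Or.inr rfl) M₀ hlin hKb hK0 M hM1 hM2 A ?_ ?_
    · exact (hW1 _).1 (by simp)
    · by_contra hcon
      push Not at hcon
      have := (hW1 _).2 hcon
      rw [Finset.mem_Icc] at this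
      omega
  have hB : |(B : ℝ) - M| ≤ δ * M + 1 := by
    refine window hlam0 hδ0 hε (XX a b D γ x) 1 (Or.inl rfl) M₀ hlin hKb hK0 M hM1 hM2 B ?_ ?_
    · exact (hW1 _).1 (by simp)
    · by_contra hcon
      push Not at hcon
      have := (hW1 _).2 hcon
      rw [Finset.mem_Icc] at this
      omega
  have hfinal := diff_le w hw1 A B M _ hA hB
  have h8 : 8 ≤ c * M := by
    rw [div_le_iff₀ hc] at hM3
    linarith
  have h9 : c / (2 * lam) * (lam * M) = c * M / 2 := by field_simp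
  change c / (2 * lam) * (lam * M) ≤ ‖∑ n ∈ Finset.Icc (-(A : ℤ)) B, w n‖
  rw [h9]
  have h10 : 2 * (δ * M + 1) = c * M / 4 + 2 := by rw [hδ]; ring
  rw [h10] at hfinal
  linarith

end Pool.Agent.H152R3.KD.BRIDGE
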