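import Pool.Agent.H152R3.KD.Stmts

set_option autoImplicit false

/-!
`TaskCOB`: the parity cocycle of `[0, D)` is a coboundary.
-/

open MeasureTheory Filter Topology Set

namespace Pool.Agent.H152R3.KD.COB

open Pool.Agent.H152R3.KD

/-- indicator of `fract y < e` -/
noncomputable def ind (e y : ℝ) : ℕ := if Int.fract y < e then 1 else 0

theorem ind_periodic (e y : ℝ) : ind e (y + 1) = ind e y := by
  unfold ind
  rw [Int.fract_add_one]

theorem ind_sub_int (e y : ℝ) (m : ℤ) : ind e (y - m) = ind e y := by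
  unfold ind
  rw [Int.fract_sub_intCast]

theorem ind_split (e y : ℝ) (he : 0 < e) (he2 : 2 * e ≤ 1) :
    ind e y + ind e (y - e) = ind (2 * e) y := by
  unfold ind
  have hf0 := Int.fract_nonneg y
  have hf1 := Int.fract_lt_one y
  have hy : y - e = (Int.fract y - e) + (⌊y⌋ : ℤ) := by
    have := Int.fract_add_floor y
    linarith
  by_cases h : Int.fract y < e
  · have h1 : Int.fract (y - e) = Int.fract y - e + 1 := by
      rw [hy, Int.fract_add_intCast]
      rw [Int.fract_eq_iff]
      exact ⟨by linarith, by linarith, ⟨-1, by push_cast; ring⟩⟩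
    rw [h1, if_pos h, if_neg (by linarith), if_pos (by linarith)]
  · push Not at h
    have h1 : Int.fract (y - e) = Int.fract y - e := by
      rw [hy, Int.fract_add_intCast]
      rw [Int.fract_eq_iff]
      exact ⟨by linarith, by linarith, ⟨0, by push_cast; ring⟩⟩
    rw [h1, if_neg (not_lt.mpr h)]
    by_cases h2 : Int.fract y < 2 * e
    · rw [if_pos (by linarith), if_pos h2]
    · rw [if_neg (by linarith), if_neg h2]

theorem ind_shift (e y c : ℝ) (he : 0 < e) (hc : 0 ≤ c) (hce : c + e < 1) :
    ind e (y - c) = if c ≤ Int.fract y ∧ Int.fract y < c + e then 1 else 0 := by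
  unfold ind
  have hf0 := Int.fract_nonneg y
  have hf1 := Int.fract_lt_one y
  have hy : y - c = (Int.fract y - c) + (⌊y⌋ : ℤ) := by
    have := Int.fract_add_floor y
    linarith
  by_cases h : c ≤ Int.fract y
  · have h1 : Int.fract (y - c) = Int.fract y - c := by
      rw [hy, Int.fract_add_intCast]
      rw [Int.fract_eq_iff]
      exact ⟨by linarith, by linarith, ⟨0, by push_cast; ring⟩⟩
    rw [h1]
    by_cases h2 : Int.fract y < c + e
    · rw [if_pos (by linarith), if_pos ⟨h, h2⟩]
    · rw [if_neg (by linarith), if_neg (fun h' => h2 h'.2)]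
  · have h1 : Int.fract (y - c) = Int.fract y - c + 1 := by
      push Not at h
      rw [hy, Int.fract_add_intCast]
      rw [Int.fract_eq_iff]
      exact ⟨by linarith, by linarith, ⟨-1, by push_cast; ring⟩⟩
    rw [h1, if_neg (by push Not at h; linarith), if_neg (fun h' => h h'.1)]

theorem measurable_ind (e c : ℝ) : Measurable (fun y : ℝ => ind e (y - c)) := by
  unfold ind
  exact Measurable.ite (measurableSet_lt (measurable_fract.comp (measurable_id.sub_const c))
    measurable_const) measurable_const measurable_const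

/-- the measure of a hit set in an interval of length one -/
theorem vol_ind (e c a : ℝ) (he : 0 < e) :
    volume ({y : ℝ | ind e (y - c) ≠ 0} ∩ Ico a (a + 1)) ≤ ENNReal.ofReal (2 * e) := by
  set m : ℤ := ⌊a - c⌋ with hm
  have hsub : ({y : ℝ | ind e (y - c) ≠ 0} ∩ Ico a (a + 1)) ⊆
      Ico (c + m) (c + m + e) ∪ Ico (c + m + 1) (c + m + 1 + e) := by
    rintro y ⟨hy, hya, hyb⟩
    have hlt : Int.fract (y - c) < e := by
      by_contra hcon
      apply hy
      unfold ind
      rw [if_neg hcon]
    have hfl : ⌊y - c⌋ = m ∨ ⌊y - c⌋ = m + 1 := by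
      have h1 : m ≤ ⌊y - c⌋ := Int.floor_le_floor (by linarith)
      have h2 : ⌊y - c⌋ ≤ ⌊(a - c) + 1⌋ := Int.floor_le_floor (by linarith)
      rw [Int.floor_add_one] at h2
      omega
    have hdec := Int.floor_add_fract (y - c)
    have hf0 := Int.fract_nonneg (y - c)
    rcases hfl with h | h
    · left
      rw [h] at hdec
      exact ⟨by linarith, by linarith⟩
    · right
      rw [h] at hdec
      push_cast at hdec
      exact ⟨by linarith, by linarith⟩
  calc volume ({y : ℝ | ind e (y - c) ≠ 0} ∩ Ico a (a + 1))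
      ≤ volume (Ico (c + m) (c + m + e) ∪ Ico (c + m + 1) (c + m + 1 + e)) := measure_mono hsub
    _ ≤ volume (Ico (c + m) (c + m + e)) + volume (Ico (c + m + 1) (c + m + 1 + e)) :=
        measure_union_le _ _
    _ = ENNReal.ofReal (2 * e) := by
        rw [Real.volume_Ico, Real.volume_Ico, ← ENNReal.ofReal_add (by linarith) (by linarith)]
        congr 1
        ring

/-- number of visits -/
noncomputable def Xn (γ e d : ℝ) (q : ℕ) (θ : ℝ) : ℕ :=
  ∑ j ∈ Finset.range q, ind e (θ - (d + (j + 1 : ℕ) * γ))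

theorem measurable_Xn (γ e d : ℝ) (q : ℕ) : Measurable (Xn γ e d q) := by
  unfold Xn
  exact Finset.measurable_sum _ fun j _ => measurable_ind e _

theorem Xn_periodic (γ e d : ℝ) (q : ℕ) (θ : ℝ) : Xn γ e d q (θ + 1) = Xn γ e d q θ := by
  unfold Xn
  refine Finset.sum_congr rfl fun j _ => ?_
  rw [← ind_periodic e (θ - (d + (j + 1 : ℕ) * γ))]
  congr 1
  ring

theorem vol_Xn (γ e d : ℝ) (q : ℕ) (a : ℝ) (he : 0 < e) :
    volume ({y : ℝ | Xn γ e d q y ≠ 0} ∩ Ico a (a + 1)) ≤ ENNReal.ofReal (2 * (q * e)) := by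
  have hsub : ({y : ℝ | Xn γ e d q y ≠ 0} ∩ Ico a (a + 1)) ⊆
      ⋃ j ∈ Finset.range q, ({y : ℝ | ind e (y - (d + (j + 1 : ℕ) * γ)) ≠ 0} ∩ Ico a (a + 1)) := by
    rintro y ⟨hy, hya⟩
    simp only [mem_iUnion]
    by_contra hcon
    push Not at hcon
    apply hy
    unfold Xn
    apply Finset.sum_eq_zero
    intro j hj
    by_contra h0
    exact hcon j hj ⟨h0, hya⟩
  calc volume ({y : ℝ | Xn γ e d q y ≠ 0} ∩ Ico a (a + 1))
      ≤ volume (⋃ j ∈ Finset.range q,
          ({y : ℝ | ind e (y - (d + (j + 1 : ℕ) * γ)) ≠ 0} ∩ Ico a (a + 1))) := measure_mono hsub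
    _ ≤ ∑ j ∈ Finset.range q,
          volume ({y : ℝ | ind e (y - (d + (j + 1 : ℕ) * γ)) ≠ 0} ∩ Ico a (a + 1)) :=
        measure_biUnion_finset_le _ _
    _ ≤ ∑ _j ∈ Finset.range q, ENNReal.ofReal (2 * e) :=
        Finset.sum_le_sum fun j _ => vol_ind e _ a he
    _ = ENNReal.ofReal (2 * (q * e)) := by
        rw [Finset.sum_const, Finset.card_range, nsmul_eq_mul, ← ENNReal.ofReal_natCast,
          ← ENNReal.ofReal_mul (by positivity)]
        congr 1
        ring

/-- the telescoping identity -/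
theorem Xn_shift (γ e d : ℝ) (q : ℕ) (p : ℤ) (hq : (q : ℝ) * γ - p = e) (θ : ℝ) :
    Xn γ e d q (θ + γ) + ind e ((θ - d) - e) = Xn γ e d q θ + ind e (θ - d) := by
  have h1 : Xn γ e d q (θ + γ) = ∑ j ∈ Finset.range q, ind e (θ - (d + (j : ℕ) * γ)) := by
    unfold Xn
    refine Finset.sum_congr rfl fun j _ => ?_
    congr 1
    push_cast
    ring
  have h2 : ind e ((θ - d) - e) = ind e (θ - (d + (q : ℕ) * γ)) := by
    rw [← ind_sub_int e ((θ - d) - e) p]
    congr 1
    rw [← hq]
    ring
  have h3 : ind e (θ - d) = ind e (θ - (d + ((0 : ℕ) : ℝ) * γ)) := by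
    congr 1
    push_cast
    ring
  rw [h1, h2, h3, ← Finset.sum_range_succ (fun j : ℕ => ind e (θ - (d + (j : ℕ) * γ))) q,
    Finset.sum_range_succ' (fun j : ℕ => ind e (θ - (d + (j : ℕ) * γ))) q]
  rfl

theorem taskCOB : TaskCOB := by
  intro γ D q p hD hpos hsum hhas
  set ε : ℕ → ℝ := fun n => (q n : ℝ) * γ - p n with hε
  set Dn : ℕ → ℝ := fun n => ∑ i ∈ Finset.range n, 2 * ε i with hDn
  have hpos' : ∀ n, 0 < ε n := hpos
  have hDn0 : ∀ n, 0 ≤ Dn n := fun n =>
    Finset.sum_nonneg fun i _ => by have := hpos' i; linarith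
  have hDnle : ∀ n, Dn n ≤ D := fun n =>
    sum_le_hasSum _ (fun i _ => by have := hpos' i; linarith) hhas
  have hDnsucc : ∀ n, Dn (n + 1) = Dn n + 2 * ε n := fun n => Finset.sum_range_succ _ _
  have hDtend : Tendsto Dn atTop (𝓝 D) := hhas.tendsto_sum_nat
  set X : ℕ → ℝ → ℕ := fun n => Xn γ (ε n) (Dn n) (q n) with hX
  set S : ℕ → ℝ → ℕ := fun N θ => ∑ n ∈ Finset.range N, X n θ with hS
  have hXmeas : ∀ n, Measurable (X n) := fun n => measurable_Xn _ _ _ _
  have hSmeas : ∀ N, Measurable (S N) := fun N => Finset.measurable_sum _ fun n _ => hXmeas n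
  -- the relation
  have hrel : ∀ N θ, Even (S N (θ + γ) + S N θ + if Int.fract θ < Dn N then 1 else 0) := by
    intro N θ
    induction N with
    | zero =>
      have h0 : Dn 0 = 0 := by simp [hDn]
      rw [h0, if_neg (not_lt.mpr (Int.fract_nonneg θ))]
      simp [hS]
    | succ N ih =>
      have hs1 : ∀ θ, S (N + 1) θ = S N θ + X N θ := fun θ => Finset.sum_range_succ _ _
      rw [hs1, hs1]
      have hlt : Dn N + 2 * ε N < 1 := by
        rw [← hDnsucc]
        exact lt_of_le_of_lt (hDnle (N + 1)) hD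
      have hsh := Xn_shift γ (ε N) (Dn N) (q N) (p N) rfl θ
      have hsp := ind_split (ε N) (θ - Dn N) (hpos' N) (by have := hDn0 N; linarith)
      have hin := ind_shift (2 * ε N) θ (Dn N) (by have := hpos' N; linarith) (hDn0 N) hlt
      rw [hin] at hsp
      have hX1 : X N (θ + γ) = Xn γ (ε N) (Dn N) (q N) (θ + γ) := rfl
      have hX2 : X N θ = Xn γ (ε N) (Dn N) (q N) θ := rfl
      rw [hX1, hX2]
      have hif : ((if Int.fract θ < Dn (N + 1) then 1 else 0 : ℕ)) =
          (if Int.fract θ < Dn N then 1 else 0) +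
            (if Dn N ≤ Int.fract θ ∧ Int.fract θ < Dn N + 2 * ε N then 1 else 0) := by
        rw [hDnsucc]
        have := hpos' N
        by_cases h1 : Int.fract θ < Dn N
        · rw [if_pos (by linarith), if_pos h1, if_neg (fun h => absurd h.1 (not_le.mpr h1))]
        · by_cases h2 : Int.fract θ < Dn N + 2 * ε N
          · rw [if_pos h2, if_neg h1, if_pos ⟨not_lt.mp h1, h2⟩]
          · rw [if_neg h2, if_neg h1, if_neg (fun h => h2 h.2)]
      rw [hif]
      rw [Nat.even_iff] at ih ⊢
      omega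
  -- Borel-Cantelli
  have hbc : ∀ᵐ θ : ℝ, ∀ᶠ n in atTop, X n θ = 0 := by
    have h1 : ∀ k : ℤ, ∀ᵐ θ ∂(volume.restrict (Ico (k : ℝ) (k + 1))),
        ∀ᶠ n in atTop, X n θ = 0 := by
      intro k
      have hA : ∑' n, (volume.restrict (Ico (k : ℝ) (k + 1))) {θ | X n θ ≠ 0} ≠ ⊤ := by
        have hle : ∀ n, (volume.restrict (Ico (k : ℝ) (k + 1))) {θ | X n θ ≠ 0} ≤
            ENNReal.ofReal (2 * (q n * ε n)) := by
          intro n
          have hmeas : MeasurableSet {θ | X n θ ≠ 0} :=
            (hXmeas n) (measurableSet_singleton 0).compl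
          rw [Measure.restrict_apply hmeas]
          exact vol_Xn γ (ε n) (Dn n) (q n) k (hpos' n)
        refine ne_top_of_le_ne_top ?_ (ENNReal.tsum_le_tsum hle)
        have hs2 : Summable (fun n => 2 * ((q n : ℝ) * ε n)) := hsum.mul_left 2
        rw [← ENNReal.ofReal_tsum_of_nonneg (fun n => by have := hpos' n; positivity) hs2]
        exact ENNReal.ofReal_ne_top
      filter_upwards [ae_eventually_notMem hA] with θ hθ
      filter_upwards [hθ] with n hn
      by_contra h
      exact hn h
    have h2 := (ae_restrict_iUnion_iff (μ := (volume : Measure ℝ))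
      (fun k : ℤ => Ico (k : ℝ) (k + 1)) (fun θ => ∀ᶠ n in atTop, X n θ = 0)).mpr h1
    rw [iUnion_Ico_intCast, Measure.restrict_univ] at h2
    exact h2
  -- the function
  classical
  set ξ : ℝ → ℝ := fun θ => if ∀ m : ℕ, ∃ N, m ≤ N ∧ Even (S N θ) then 1 else -1 with hξ
  have hval1 : ∀ θ, (∀ᶠ N in atTop, Even (S N θ)) → ξ θ = 1 := by
    intro θ h
    have : ∀ m : ℕ, ∃ N, m ≤ N ∧ Even (S N θ) := by
      intro m
      obtain ⟨N, hN1, hN2⟩ := (h.and (eventually_ge_atTop m)).exists
      exact ⟨N, hN2, hN1⟩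
    simp only [hξ]
    rw [if_pos this]
  have hval2 : ∀ θ, (∀ᶠ N in atTop, ¬ Even (S N θ)) → ξ θ = -1 := by
    intro θ h
    have : ¬ ∀ m : ℕ, ∃ N, m ≤ N ∧ Even (S N θ) := by
      intro hc
      obtain ⟨M, hM⟩ := eventually_atTop.mp h
      obtain ⟨N, hN1, hN2⟩ := hc M
      exact hM N hN1 hN2
    simp only [hξ]
    rw [if_neg this]
  refine ⟨ξ, ?_, ?_, ?_, ?_⟩
  · refine Measurable.ite ?_ measurable_const measurable_const
    have hset : {θ : ℝ | ∀ m : ℕ, ∃ N, m ≤ N ∧ Even (S N θ)} =
        ⋂ m : ℕ, ⋃ N : ℕ, {θ : ℝ | m ≤ N ∧ Even (S N θ)} := by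
      ext θ
      simp
    rw [hset]
    refine MeasurableSet.iInter fun m => MeasurableSet.iUnion fun N => ?_
    by_cases hmN : m ≤ N
    · simp only [hmN, true_and]
      exact (hSmeas N) (MeasurableSet.of_discrete (s := {k : ℕ | Even k}))
    · simp only [hmN, false_and]
      exact MeasurableSet.empty
  · intro θ
    simp only [hξ]
    split_ifs
    · exact Or.inl rfl
    · exact Or.inr rfl
  · intro θ
    have : ∀ N, S N (θ + 1) = S N θ := by
      intro N
      simp only [hS, hX]
      exact Finset.sum_congr rfl fun n _ => Xn_periodic _ _ _ _ _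
    simp only [hξ, this]
  · filter_upwards [hbc] with θ hθ
    -- `S N θ` is eventually constant
    obtain ⟨M, hM⟩ := eventually_atTop.mp hθ
    have hconst : ∀ N, M ≤ N → S N θ = S M θ := by
      intro N hN
      induction N, hN using Nat.le_induction with
      | base => rfl
      | succ N hN ih =>
        have : S (N + 1) θ = S N θ + X N θ := Finset.sum_range_succ _ _
        rw [this, hM N hN, add_zero, ih]
    by_cases hE : Even (S M θ)
    · have e1 : ξ θ = 1 := hval1 θ (eventually_atTop.mpr ⟨M, fun N hN => by rw [hconst N hN]; exact hE⟩)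
      by_cases hf : Int.fract θ < D
      · rw [if_pos hf, e1, mul_one]
        apply hval2
        filter_upwards [hDtend.eventually (lt_mem_nhds hf), eventually_ge_atTop M] with N hN hMN
        have h := hrel N θ
        rw [if_pos hN, hconst N hMN] at h
        rw [Nat.even_iff] at *
        omega
      · rw [if_neg hf, e1, mul_one]
        apply hval1
        filter_upwards [eventually_ge_atTop M] with N hMN
        have h := hrel N θ
        have hnot : ¬ Int.fract θ < Dn N := fun h' => hf (lt_of_lt_of_le h' (hDnle N))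
        rw [if_neg hnot, hconst N hMN] at h
        rw [Nat.even_iff] at *
        omega
    · have e1 : ξ θ = -1 := hval2 θ (eventually_atTop.mpr ⟨M, fun N hN => by rw [hconst N hN]; exact hE⟩)
      by_cases hf : Int.fract θ < D
      · rw [if_pos hf, e1]
        have : ξ (θ + γ) = 1 := by
          apply hval1
          filter_upwards [hDtend.eventually (lt_mem_nhds hf), eventually_ge_atTop M] with N hN hMN
          have h := hrel N θ
          rw [if_pos hN, hconst N hMN] at h
          rw [Nat.even_iff] at *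
          omega
        rw [this]
        norm_num
      · rw [if_neg hf, e1, one_mul]
        apply hval2
        filter_upwards [eventually_ge_atTop M] with N hMN
        have h := hrel N θ
        have hnot : ¬ Int.fract θ < Dn N := fun h' => hf (lt_of_lt_of_le h' (hDnle N))
        rw [if_neg hnot, hconst N hMN] at h
        rw [Nat.even_iff] at *
        omega

end Pool.Agent.H152R3.KD.COB

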