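import Pool.Agent.H152R3.KD.Stmts

set_option autoImplicit false

open MeasureTheory Filter Topology Set

namespace Pool.Agent.H152R3.KD.CORR1

open Pool.Agent.H152R3.KD

lemma window (Y : ℕ → ℝ) (T g : ℝ) (hT : 0 ≤ T) (hg : 0 < g) (h0 : Y 0 = 0) (hm : StrictMono Y)
    (hY : ∀ n : ℕ, g * n ≤ Y n) : ∃ B : ℕ, ∀ n : ℕ, Y n ≤ T ↔ n ≤ B := by
  classical
  have hex : ∃ n, T < Y n := by
    obtain ⟨n, hn⟩ := exists_nat_gt (T / g)
    refine ⟨n, ?_⟩
    rw [div_lt_iff₀ hg] at hn
    have := hY n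
    linarith
  have hpos : 0 < Nat.find hex := by
    rw [Nat.find_pos]
    rw [h0]
    exact not_lt.2 hT
  refine ⟨Nat.find hex - 1, fun n => ⟨fun h => ?_, fun h => ?_⟩⟩
  · by_contra hcon
    have h1 : Nat.find hex ≤ n := by omega
    have h2 := Nat.find_spec hex
    have h3 := hm.monotone h1
    linarith
  · exact not_lt.1 (Nat.find_min hex (by omega))

theorem taskCORR1 : TaskCORR1 := by
  intro hBAS a b D γ x ha hab T hT
  obtain ⟨hX0, -, -, hgap, hmono, -, -⟩ := hBAS a b D γ x ha hab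
  set X : ℤ → ℝ := XX a b D γ x with hX
  have hg : 0 < min a (a + b) := lt_min ha hab
  obtain ⟨B, hB⟩ := window (fun n => X n) T _ hT hg (by simpa using hX0)
    (fun m n h => hmono (by exact_mod_cast h))
    (fun n => by
      have := (hgap 0 n (by positivity)).1
      rw [hX0] at this
      simpa using this)
  obtain ⟨A, hA⟩ := window (fun n => -X (-n)) T _ hT hg (by simpa using hX0)
    (fun m n h => neg_lt_neg (hmono (neg_lt_neg (by exact_mod_cast h))))
    (fun n => by
      have := (hgap (-n) 0 (by simp)).1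
      rw [hX0] at this
      simpa using this)
  have hwin : ∀ n : ℤ, n ∈ Finset.Icc (-(A : ℤ)) B ↔ |X n| ≤ T := by
    intro n
    rw [Finset.mem_Icc]
    rcases le_or_gt 0 n with hn | hn
    · obtain ⟨k, rfl⟩ := Int.eq_ofNat_of_zero_le hn
      have h1 : 0 ≤ X k := by
        rw [← hX0]; exact hmono.monotone hn
      rw [abs_of_nonneg h1, hB k]
      constructor
      · rintro ⟨_, h⟩; exact_mod_cast h
      · intro h
        exact ⟨by omega, by exact_mod_cast h⟩
    · obtain ⟨k, hk⟩ := Int.eq_ofNat_of_zero_le (show 0 ≤ -n by omega)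
      have hn' : n = -(k : ℤ) := by omega
      subst hn'
      have h1 : X (-(k : ℤ)) ≤ 0 := by
        rw [← hX0]; exact hmono.monotone hn.le
      rw [abs_of_nonpos h1, hA k]
      constructor
      · rintro ⟨h, _⟩
        have : (k : ℤ) ≤ A := by omega
        exact_mod_cast this
      · intro h
        have : (k : ℤ) ≤ A := by exact_mod_cast h
        exact ⟨by omega, by omega⟩
  have hset : Lam a b D γ x ∩ Icc (-T) T = X '' ((Finset.Icc (-(A : ℤ)) B : Finset ℤ) : Set ℤ) := by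
    ext y
    constructor
    · rintro ⟨⟨n, rfl⟩, h⟩
      refine ⟨n, ?_, rfl⟩
      rw [Finset.mem_coe, hwin]
      exact abs_le.2 h
    · rintro ⟨n, hn, rfl⟩
      rw [Finset.mem_coe, hwin] at hn
      exact ⟨⟨n, rfl⟩, abs_le.1 hn⟩
  have hsum : ∀ F : ℝ → ℂ, ∑ᶠ y ∈ Lam a b D γ x ∩ Icc (-T) T, F y =
      ∑ n ∈ Finset.Icc (-(A : ℤ)) B, F (X n) := by
    intro F
    rw [hset, finsum_mem_image hmono.injective.injOn, finsum_mem_coe_finset]
  refine ⟨A, B, hwin, ?_, hsum, ?_, ?_, ?_⟩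
  · rw [hset]
    exact (Finset.finite_toSet _).image _
  · intro f
    unfold corr
    rw [hsum]
    congr 1
    apply Finset.sum_congr rfl
    intro n _
    rw [hsum (fun y => f (X n - y))]
  · have h1 := (hwin (-(A : ℤ))).1 (Finset.mem_Icc.2 ⟨le_refl _, by omega⟩)
    have h2 := (hgap (-(A : ℤ)) 0 (by omega)).1
    rw [hX0] at h2
    have h3 := (abs_le.1 h1).1
    simp at h2
    linarith
  · have h1 := (hwin (B : ℤ)).1 (Finset.mem_Icc.2 ⟨by omega, le_refl _⟩)
    have h2 := (hgap 0 (B : ℤ) (by omega)).1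
    rw [hX0] at h2
    have h3 := (abs_le.1 h1).2
    simp at h2
    linarith

end Pool.Agent.H152R3.KD.CORR1
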