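import Pool.Agent.H152R3.KD.Stmts

/-! Task CORR2 (helper603): convergence of the correlations, by dominated convergence. -/

set_option autoImplicit false
set_option maxHeartbeats 4000000

open MeasureTheory Filter Topology Set

namespace Pool.Agent.H152R3.KD.CORR2

open Pool.Agent.H152R3.KD

/-- inversion of a linear growth rate -/
lemma ratio (Y : ℕ → ℝ) (l : ℝ) (hl : 0 < l) (hY : Tendsto (fun n : ℕ => Y n / n) atTop (𝓝 l))
    (B : ℝ → ℕ) (hB : ∀ T, 0 ≤ T → Y (B T) ≤ T ∧ T < Y (B T + 1)) :
    Tendsto B atTop atTop ∧ Tendsto (fun T => (B T : ℝ) / T) atTop (𝓝 (1 / l)) := by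
  have hBt : Tendsto B atTop atTop := by
    rw [tendsto_atTop]
    intro N
    filter_upwards [eventually_ge_atTop (∑ i ∈ Finset.range (N + 2), |Y i|),
      eventually_ge_atTop (0 : ℝ)] with T hT hT0
    by_contra hc
    push Not at hc
    have h1 := (hB T hT0).2
    have h2 : |Y (B T + 1)| ≤ ∑ i ∈ Finset.range (N + 2), |Y i| :=
      Finset.single_le_sum (f := fun i => |Y i|) (fun i _ => abs_nonneg _)
        (Finset.mem_range.2 (by omega))
    have h3 := le_abs_self (Y (B T + 1))
    linarith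
  refine ⟨hBt, ?_⟩
  -- `T / B → l`
  have hBr : Tendsto (fun T => (B T : ℝ)) atTop atTop := tendsto_natCast_atTop_atTop.comp hBt
  have h1 : Tendsto (fun T => Y (B T) / (B T : ℝ)) atTop (𝓝 l) := hY.comp hBt
  have h2 : Tendsto (fun T => Y (B T + 1) / ((B T + 1 : ℕ) : ℝ)) atTop (𝓝 l) :=
    hY.comp ((tendsto_add_atTop_nat 1).comp hBt)
  have h3 : Tendsto (fun T => ((B T + 1 : ℕ) : ℝ) / (B T : ℝ)) atTop (𝓝 1) := by
    have : Tendsto (fun T => 1 + 1 / (B T : ℝ)) atTop (𝓝 (1 + 0)) :=
      tendsto_const_nhds.add ((tendsto_inv_atTop_zero.comp hBr).congr fun T => by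
        simp)
    rw [add_zero] at this
    refine this.congr' ?_
    filter_upwards [hBr.eventually_gt_atTop 0] with T hT
    push_cast
    field_simp
  have h4 := h2.mul h3
  rw [mul_one] at h4
  have h5 : Tendsto (fun T => T / (B T : ℝ)) atTop (𝓝 l) := by
    refine tendsto_of_tendsto_of_tendsto_of_le_of_le' h1 h4 ?_ ?_
    · filter_upwards [hBr.eventually_gt_atTop 0, eventually_ge_atTop (0 : ℝ)] with T hT hT0
      exact div_le_div_of_nonneg_right (hB T hT0).1 hT.le
    · filter_upwards [hBr.eventually_gt_atTop 0, eventually_ge_atTop (0 : ℝ)] with T hT hT0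
      have h6 : (0 : ℝ) < ((B T + 1 : ℕ) : ℝ) := by positivity
      have e : Y (B T + 1) / ((B T + 1 : ℕ) : ℝ) * (((B T + 1 : ℕ) : ℝ) / (B T : ℝ)) =
          Y (B T + 1) / (B T : ℝ) := by
        field_simp
      rw [e]
      exact div_le_div_of_nonneg_right (hB T hT0).2.le hT.le
  have h7 := h5.inv₀ hl.ne'
  rw [one_div]
  refine h7.congr fun T => ?_
  rw [inv_div]

lemma hasSum_window (W : Finset ℤ) (m : ℤ) (F : ℤ → ℂ) :
    HasSum (fun k : ℤ => if m + k ∈ W then F k else 0) (∑ n ∈ W, F (n - m)) := by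
  have h1 : HasSum (fun k : ℤ => if m + k ∈ W then F k else 0)
      (∑ k ∈ W.image (fun n => n - m), if m + k ∈ W then F k else 0) := by
    apply hasSum_sum_of_ne_finset_zero
    intro k hk
    rw [if_neg]
    intro hc
    apply hk
    rw [Finset.mem_image]
    exact ⟨m + k, hc, by ring⟩
  rw [Finset.sum_image (fun a _ b _ h => by simpa using h)] at h1
  have e : ∑ n ∈ W, (if m + (n - m) ∈ W then F (n - m) else 0) = ∑ n ∈ W, F (n - m) := by
    refine Finset.sum_congr rfl fun n hn => ?_
    rw [if_pos]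
    rw [show m + (n - m) = n by ring]
    exact hn
  rwa [e] at h1

lemma Icc_eq_image (A B : ℕ) : Finset.Icc (-(A : ℤ)) B =
    (Finset.range (A + B + 1)).image (fun j : ℕ => -(A : ℤ) + j) := by
  ext n
  rw [Finset.mem_Icc, Finset.mem_image]
  constructor
  · rintro ⟨h1, h2⟩
    refine ⟨(n + A).toNat, ?_, ?_⟩
    · rw [Finset.mem_range]; omega
    · omega
  · rintro ⟨j, hj, rfl⟩
    rw [Finset.mem_range] at hj
    omega

theorem taskCORR2 : TaskCORR2 := by
  intro hBAS hWEYL hLIN hCORR1 a b D γ H f hf x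
  obtain ⟨hfc, C, hfC⟩ := hf
  have hbas := fun y => hBAS a b D γ y H.a0 H.ab0
  set c := min a (a + b) with hc
  have hc0 : 0 < c := lt_min H.a0 H.ab0
  set l := a + b * D with hl
  have hl0 : 0 < l := by
    have h1 := H.D0
    have h2 := H.D1
    have h3 := H.a0
    have h4 := H.ab0
    have : l = (1 - D) * a + D * (a + b) := by rw [hl]; ring
    rw [this]
    have : 0 < (1 - D) * a := mul_pos (by linarith) h3
    have : 0 < D * (a + b) := mul_pos h1 h4
    linarith
  have hC0 : 0 ≤ C := by
    have := (norm_nonneg _).trans (hfC 0)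
    simpa using this
  -- lower bound for `|X_k|`
  have hXlow : ∀ (y : ℝ) (k : ℤ), c * |(k : ℝ)| ≤ |XX a b D γ y k| := by
    intro y k
    obtain ⟨h0, -, -, hinc, -⟩ := hbas y
    rcases le_total 0 k with hk | hk
    · have := (hinc 0 k hk).1
      rw [h0, sub_zero, sub_zero] at this
      have hk' : (0 : ℝ) ≤ k := by exact_mod_cast hk
      rw [abs_of_nonneg hk']
      exact this.trans (le_abs_self _)
    · have := (hinc k 0 hk).1
      rw [h0, zero_sub, zero_sub] at this
      have hk' : (k : ℝ) ≤ 0 := by exact_mod_cast hk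
      rw [abs_of_nonpos hk']
      push_cast at this
      exact this.trans (neg_le_abs _)
  set u : ℤ → ℝ := fun k => C / (1 + c ^ 2 * (k : ℝ) ^ 2) with hu
  have hu0 : ∀ k, 0 ≤ u k := fun k => by simp only [hu]; positivity
  have hgu : ∀ (y : ℝ) (k : ℤ), ‖f (XX a b D γ y k)‖ ≤ u k := by
    intro y k
    refine (hfC _).trans ?_
    simp only [hu]
    have h1 : (c * |(k : ℝ)|) ^ 2 ≤ |XX a b D γ y k| ^ 2 :=
      pow_le_pow_left₀ (by positivity) (hXlow y k) 2
    rw [mul_pow, sq_abs, sq_abs] at h1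
    gcongr
  have husum : Summable u := by
    have h1 : Summable (fun k : ℤ => C / c ^ 2 * (1 / (k : ℝ) ^ 2) + (if k = 0 then C else 0)) := by
      refine ((Real.summable_one_div_int_pow.2 (by norm_num : 1 < 2)).mul_left _).add ?_
      exact (hasSum_ite_eq (0 : ℤ) C).summable
    refine Summable.of_nonneg_of_le hu0 (fun k => ?_) h1
    simp only [hu]
    by_cases hk : k = 0
    · subst hk
      simp
    · rw [if_neg hk, add_zero]
      have hk' : (0 : ℝ) < (k : ℝ) ^ 2 := by
        have : (k : ℝ) ≠ 0 := by exact_mod_cast hk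
        positivity
      have e : C / c ^ 2 * (1 / (k : ℝ) ^ 2) = C / (c ^ 2 * (k : ℝ) ^ 2) := by field_simp
      rw [e]
      apply div_le_div_of_nonneg_left hC0 (by positivity)
      linarith
  -- windows
  have hcor := fun T (hT : (0 : ℝ) ≤ T) => hCORR1 hBAS a b D γ x H.a0 H.ab0 T hT
  choose! A B hAB using hcor
  obtain ⟨X0, -, hcoc, hinc, hmono, -, -⟩ := hbas x
  -- ratios
  have hlinB : Tendsto (fun n : ℕ => XX a b D γ x n / n) atTop (𝓝 l) := by
    rw [Metric.tendsto_atTop]
    intro ε hε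
    obtain ⟨M₀, hM₀⟩ := hLIN hBAS hWEYL a b D γ H (ε / 2) (by positivity)
    refine ⟨M₀ + 1, fun n hn => ?_⟩
    have h1 := hM₀ (n : ℤ) (by rw [abs_of_nonneg (by positivity)]; omega) x
    have hn0 : (0 : ℝ) < n := by
      have : 0 < n := by omega
      exact_mod_cast this
    rw [Real.dist_eq]
    push_cast at h1
    rw [abs_of_pos hn0] at h1
    have e : XX a b D γ x n / n - l = (XX a b D γ x n - (a + b * D) * n) / n := by
      rw [hl]; field_simp
    rw [e, abs_div, abs_of_pos hn0, div_lt_iff₀ hn0]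
    calc _ ≤ ε / 2 * n := h1
      _ < ε * n := by
        have : ε / 2 < ε := by linarith
        gcongr
  have hlinA : Tendsto (fun n : ℕ => (-(XX a b D γ x (-(n : ℤ)))) / n) atTop (𝓝 l) := by
    rw [Metric.tendsto_atTop]
    intro ε hε
    obtain ⟨M₀, hM₀⟩ := hLIN hBAS hWEYL a b D γ H (ε / 2) (by positivity)
    refine ⟨M₀ + 1, fun n hn => ?_⟩
    have h1 := hM₀ (-(n : ℤ)) (by rw [abs_neg, abs_of_nonneg (by positivity)]; omega) x
    have hn0 : (0 : ℝ) < n := by
      have : 0 < n := by omega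
      exact_mod_cast this
    rw [Real.dist_eq]
    push_cast at h1
    rw [abs_neg, abs_of_pos hn0] at h1
    have e : -(XX a b D γ x (-(n : ℤ))) / n - l =
        -(XX a b D γ x (-(n : ℤ)) - (a + b * D) * (-n)) / n := by
      rw [hl]; field_simp; ring
    rw [e, abs_div, abs_neg, abs_of_pos hn0, div_lt_iff₀ hn0]
    calc _ ≤ ε / 2 * n := h1
      _ < ε * n := by
        have : ε / 2 < ε := by linarith
        gcongr
  have hBprop : ∀ T, 0 ≤ T → XX a b D γ x (B T : ℤ) ≤ T ∧ T < XX a b D γ x ((B T + 1 : ℕ) : ℤ) := by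
    intro T hT
    obtain ⟨hW, -⟩ := hAB T hT
    constructor
    · have h1 := (hW (B T)).1 (Finset.mem_Icc.2 ⟨by omega, le_rfl⟩)
      exact (le_abs_self _).trans h1
    · by_contra hcon
      push Not at hcon
      have hpos : 0 ≤ XX a b D γ x ((B T + 1 : ℕ) : ℤ) := by
        rw [← X0]
        exact hmono.monotone (by omega)
      have h2 := (hW ((B T + 1 : ℕ) : ℤ)).2 (by rw [abs_of_nonneg hpos]; exact hcon)
      rw [Finset.mem_Icc] at h2
      omega
  have hAprop : ∀ T, 0 ≤ T → -(XX a b D γ x (-(A T : ℤ))) ≤ T ∧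
      T < -(XX a b D γ x (-((A T + 1 : ℕ) : ℤ))) := by
    intro T hT
    obtain ⟨hW, -⟩ := hAB T hT
    constructor
    · have h1 := (hW (-(A T : ℤ))).1 (Finset.mem_Icc.2 ⟨le_rfl, by omega⟩)
      exact (neg_le_abs _).trans h1
    · by_contra hcon
      push Not at hcon
      have hneg : XX a b D γ x (-((A T + 1 : ℕ) : ℤ)) ≤ 0 := by
        rw [← X0]
        exact hmono.monotone (by omega)
      have h2 := (hW (-((A T + 1 : ℕ) : ℤ))).2 (by rw [abs_of_nonpos hneg]; exact hcon)
      rw [Finset.mem_Icc] at h2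
      omega
  obtain ⟨hBt, hBr⟩ := ratio (fun n : ℕ => XX a b D γ x n) l hl0 hlinB B hBprop
  obtain ⟨hAt, hAr⟩ := ratio (fun n : ℕ => -(XX a b D γ x (-(n : ℤ)))) l hl0 hlinA A hAprop
  -- `M = A + B + 1`
  set M : ℝ → ℕ := fun T => A T + B T + 1 with hM
  have hMt : Tendsto M atTop atTop :=
    tendsto_atTop_mono (fun T => by simp only [hM]; omega) hBt
  have hMr : Tendsto (fun T => (M T : ℝ) / (2 * T)) atTop (𝓝 (1 / l)) := by
    have h1 : Tendsto (fun T : ℝ => 1 / T) atTop (𝓝 0) := by
      simpa using tendsto_inv_atTop_zero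
    have h2 := ((hAr.add hBr).add h1).div_const 2
    have e : (1 / l + 1 / l + 0) / 2 = 1 / l := by ring
    rw [e] at h2
    refine h2.congr fun T => ?_
    simp only [hM]
    push_cast
    rw [← add_div, ← add_div, div_div]
    ring_nf
  -- the coefficients
  set W : ℝ → Finset ℤ := fun T => Finset.Icc (-(A T : ℤ)) (B T) with hWdef
  set g : ℤ → ℝ → ℂ := fun k θ => f (XX a b D γ θ k) with hg
  set cf : ℝ → ℤ → ℂ := fun T k => (1 / (2 * (T : ℂ))) *
    ∑ m ∈ W T, (if m + k ∈ W T then g k (x + m * γ) else 0) with hcf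
  have hcardW : ∀ T, (W T).card = M T := by
    intro T
    simp only [hWdef, hM, Int.card_Icc]
    omega
  -- identity
  have hcorr : ∀ T, 0 ≤ T → corr (Lam a b D γ x) f T = ∑' k, cf T k := by
    intro T hT
    obtain ⟨-, -, -, hco, -⟩ := hAB T hT
    rw [hco f, Finset.sum_comm]
    have h1 : HasSum (cf T) ((1 / (2 * (T : ℂ))) * ∑ m ∈ W T, ∑ n ∈ W T, g (n - m) (x + m * γ)) := by
      simp only [hcf]
      apply HasSum.mul_left
      apply hasSum_sum
      intro m _
      exact hasSum_window (W T) m (fun k => g k (x + m * γ))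
    rw [h1.tsum_eq]
    congr 1
    refine Finset.sum_congr rfl fun m _ => Finset.sum_congr rfl fun n _ => ?_
    simp only [hg]
    have := hcoc m (n - m)
    rw [show m + (n - m) = n by ring] at this
    congr 1
    rw [this]; ring
  -- bound
  have hnorm : ∀ T : ℝ, 0 < T → ‖(1 / (2 * (T : ℂ)))‖ = 1 / (2 * T) := by
    intro T hT
    rw [norm_div, norm_one, norm_mul, Complex.norm_real, Real.norm_of_nonneg hT.le]
    norm_num
  have hbound : ∀ᶠ T in atTop, ∀ k, ‖cf T k‖ ≤ (1 / l + 1) * u k := by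
    filter_upwards [hMr.eventually_le_const (show 1 / l < 1 / l + 1 by linarith),
      eventually_gt_atTop (0 : ℝ)] with T hT hT0 k
    simp only [hcf]
    rw [norm_mul, hnorm T hT0]
    have h1 : ‖∑ m ∈ W T, (if m + k ∈ W T then g k (x + m * γ) else 0)‖ ≤ (M T : ℝ) * u k := by
      rw [← hcardW T, ← nsmul_eq_mul]
      refine norm_sum_le_of_le _ (fun m _ => ?_) |>.trans (le_of_eq (Finset.sum_const _))
      split_ifs
      · exact hgu _ k
      · rw [norm_zero]; exact hu0 k
    calc 1 / (2 * T) * ‖∑ m ∈ W T, (if m + k ∈ W T then g k (x + m * γ) else 0)‖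
        ≤ 1 / (2 * T) * ((M T : ℝ) * u k) := by gcongr
      _ = (M T : ℝ) / (2 * T) * u k := by ring
      _ ≤ (1 / l + 1) * u k := mul_le_mul_of_nonneg_right hT (hu0 k)
  -- pointwise limits
  set I : ℤ → ℂ := fun k => ∫ θ in Ico (0 : ℝ) 1, f (XX a b D γ θ k) with hI
  have hpt : ∀ k : ℤ, Tendsto (fun T => cf T k) atTop (𝓝 ((1 / ((l : ℝ) : ℂ)) * I k)) := by
    intro k
    -- full sum
    set S : ℝ → ℂ := fun T => ∑ m ∈ W T, g k (x + m * γ) with hS
    have hSM : Tendsto (fun T => S T / (M T : ℂ)) atTop (𝓝 (I k)) := by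
      rw [Metric.tendsto_nhds]
      intro ε hε
      obtain ⟨M₀, hM₀⟩ := hWEYL hBAS a b D γ H f hfc k (ε / 2) (by positivity)
      filter_upwards [hMt.eventually_ge_atTop (max M₀ 1)] with T hT
      have hT1 : M₀ ≤ M T := (le_max_left _ _).trans hT
      have hT2 : 1 ≤ M T := (le_max_right _ _).trans hT
      have h1 := hM₀ (M T) hT1 (x + (-(A T : ℤ) : ℤ) * γ)
      have e1 : ∑ j ∈ Finset.range (M T), f (XX a b D γ (x + (-(A T : ℤ) : ℤ) * γ + j * γ) k) = S T := by
        simp only [hS, hWdef, hg, hM]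
        rw [Icc_eq_image, Finset.sum_image (fun p _ q _ h => by simpa using h)]
        refine Finset.sum_congr rfl fun j _ => ?_
        congr 2
        push_cast
        ring
      rw [e1] at h1
      have hMpos : (0 : ℝ) < M T := by exact_mod_cast hT2
      have hMne : (M T : ℂ) ≠ 0 := by exact_mod_cast hMpos.ne'
      rw [dist_eq_norm]
      have e2 : S T / (M T : ℂ) - I k = (S T - (M T : ℂ) * I k) / (M T : ℂ) := by field_simp
      rw [e2, norm_div, Complex.norm_natCast, div_lt_iff₀ hMpos]
      calc ‖S T - (M T : ℂ) * I k‖ ≤ ε / 2 * M T := h1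
        _ < ε * M T := by
          have : ε / 2 < ε := by linarith
          gcongr
    have hfull : Tendsto (fun T : ℝ => (1 / (2 * (T : ℂ))) * S T) atTop (𝓝 ((1 / ((l : ℝ) : ℂ)) * I k)) := by
      have h1 : Tendsto (fun T => ((((M T : ℝ) / (2 * T) : ℝ)) : ℂ)) atTop (𝓝 (((1 / l : ℝ)) : ℂ)) :=
        (Complex.continuous_ofReal.tendsto _).comp hMr
      have h2 := h1.mul hSM
      have e : (((1 / l : ℝ)) : ℂ) = 1 / ((l : ℝ) : ℂ) := by push_cast; rfl
      rw [e] at h2
      refine h2.congr' ?_
      filter_upwards [eventually_gt_atTop (0 : ℝ), hMt.eventually_ge_atTop 1] with T hT hT1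
      have hMne : (M T : ℂ) ≠ 0 := by
        have : (M T : ℕ) ≠ 0 := by omega
        exact_mod_cast this
      have hTne : (T : ℂ) ≠ 0 := by exact_mod_cast hT.ne'
      push_cast
      field_simp
    -- difference
    have hdiff : Tendsto (fun T : ℝ => (1 / (2 * (T : ℂ))) * S T - cf T k) atTop (𝓝 0) := by
      rw [tendsto_zero_iff_norm_tendsto_zero]
      have hz : Tendsto (fun T : ℝ => (|(k : ℝ)| * u k) * (1 / (2 * T))) atTop (𝓝 0) := by
        have h1 : Tendsto (fun T : ℝ => 1 / (2 * T)) atTop (𝓝 0) := by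
          have : Tendsto (fun T : ℝ => 2 * T) atTop atTop :=
            tendsto_id.const_mul_atTop (by norm_num)
          exact (tendsto_inv_atTop_zero.comp this).congr fun T => by simp
        simpa using h1.const_mul (|(k : ℝ)| * u k)
      refine squeeze_zero' (Eventually.of_forall fun T => norm_nonneg _) ?_ hz
      filter_upwards [eventually_gt_atTop (0 : ℝ)] with T hT
      simp only [hcf, hS]
      rw [← mul_sub, ← Finset.sum_sub_distrib, norm_mul, hnorm T hT]
      have h1 : ‖∑ m ∈ W T, (g k (x + m * γ) - (if m + k ∈ W T then g k (x + m * γ) else 0))‖ ≤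
          |(k : ℝ)| * u k := by
        have e1 : ∑ m ∈ W T, (g k (x + m * γ) - (if m + k ∈ W T then g k (x + m * γ) else 0)) =
            ∑ m ∈ (W T).filter (fun m => ¬ (m + k ∈ W T)), g k (x + m * γ) := by
          rw [Finset.sum_filter]
          refine Finset.sum_congr rfl fun m _ => ?_
          by_cases hm : m + k ∈ W T
          · simp [hm]
          · simp [hm]
        rw [e1]
        have hcard : (((W T).filter (fun m => ¬ (m + k ∈ W T))).card : ℝ) ≤ |(k : ℝ)| := by
          have hsub : (W T).filter (fun m => ¬ (m + k ∈ W T)) ⊆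
              if 0 ≤ k then Finset.Ioc ((B T : ℤ) - k) (B T) else
                Finset.Ico (-(A T : ℤ)) (-(A T : ℤ) - k) := by
            intro m hm
            rw [Finset.mem_filter] at hm
            simp only [hWdef, Finset.mem_Icc, not_and, not_le] at hm
            obtain ⟨⟨h1, h2⟩, h3⟩ := hm
            split_ifs with hk
            · rw [Finset.mem_Ioc]
              have := h3 (by omega)
              omega
            · rw [Finset.mem_Ico]
              by_contra hc
              have := h3 (by omega)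
              omega
          have h2 := Finset.card_le_card hsub
          have h3 : ((if 0 ≤ k then Finset.Ioc ((B T : ℤ) - k) (B T) else
                Finset.Ico (-(A T : ℤ)) (-(A T : ℤ) - k)).card : ℤ) ≤ |k| := by
            split_ifs with hk
            · rw [Int.card_Ioc]
              rw [abs_of_nonneg hk]
              omega
            · rw [Int.card_Ico]
              rw [abs_of_neg (by omega)]
              omega
          have h4 : (((W T).filter (fun m => ¬ (m + k ∈ W T))).card : ℤ) ≤ |k| := by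
            calc _ ≤ _ := by exact_mod_cast h2
              _ ≤ |k| := h3
          have h5 : ((((W T).filter (fun m => ¬ (m + k ∈ W T))).card : ℤ) : ℝ) ≤ ((|k| : ℤ) : ℝ) := by
            exact_mod_cast h4
          simpa using h5
        calc ‖∑ m ∈ (W T).filter (fun m => ¬ (m + k ∈ W T)), g k (x + m * γ)‖
            ≤ ∑ m ∈ (W T).filter (fun m => ¬ (m + k ∈ W T)), u k :=
              norm_sum_le_of_le _ (fun m _ => hgu _ k)
          _ = (((W T).filter (fun m => ¬ (m + k ∈ W T))).card : ℝ) * u k := by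
              rw [Finset.sum_const, nsmul_eq_mul]
          _ ≤ |(k : ℝ)| * u k := mul_le_mul_of_nonneg_right hcard (hu0 k)
      calc 1 / (2 * T) * ‖∑ m ∈ W T, (g k (x + m * γ) - (if m + k ∈ W T then g k (x + m * γ) else 0))‖
          ≤ 1 / (2 * T) * (|(k : ℝ)| * u k) := by gcongr
        _ = _ := by ring
    have := hfull.sub hdiff
    rw [sub_zero] at this
    refine this.congr fun T => ?_
    ring
  have hlim := tendsto_tsum_of_dominated_convergence (husum.mul_left (1 / l + 1)) hpt hbound
  rw [tsum_mul_left] at hlim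
  refine hlim.congr' ?_
  filter_upwards [eventually_ge_atTop (0 : ℝ)] with T hT
  exact (hcorr T hT).symm

end Pool.Agent.H152R3.KD.CORR2
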