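import Pool.Agent.H152R3.KD.Stmts

set_option autoImplicit false

/-! Project KD, task ETA (helper195). -/

open MeasureTheory Filter Topology Set
open scoped ENNReal

namespace Pool.Agent.H152R3.KD.ETA

lemma summable_aux (c : ℝ) (hc : 0 < c) : Summable fun k : ℤ => 1 / (1 + c ^ 2 * (k : ℝ) ^ 2) := by
  have h1 : Summable fun k : ℤ => (1 / c ^ 2) * (1 / (k : ℝ) ^ 2) + (if k = 0 then (1 : ℝ) else 0) := by
    refine Summable.add ?_ ?_
    · refine Summable.mul_left _ ?_
      exact Real.summable_one_div_int_pow.2 (by norm_num)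
    · exact summable_of_ne_finset_zero (s := {0}) (fun k hk => by
        rw [if_neg]; simpa using hk)
  refine Summable.of_nonneg_of_le (fun k => by positivity) (fun k => ?_) h1
  rcases eq_or_ne k 0 with rfl | hk
  · simp
  · rw [if_neg hk, add_zero]
    have hk2 : (0 : ℝ) < (k : ℝ) ^ 2 := by
      have : (k : ℝ) ≠ 0 := by exact_mod_cast hk
      positivity
    rw [one_div_mul_one_div]
    exact one_div_le_one_div_of_le (by positivity) (by linarith)

theorem taskETA : TaskETA := by
  intro hB a b D γ hH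
  have ha := hH.a0
  have hab := hH.ab0
  obtain ⟨c, hcdef⟩ : ∃ c, c = min a (a + b) := ⟨_, rfl⟩
  have hc : 0 < c := by rw [hcdef]; exact lt_min ha hab
  have hlam : 0 < a + b * D := by
    have h1 := hH.D0
    have h2 := hH.D1
    nlinarith
  have hmeas : ∀ k : ℤ, Measurable (fun θ => XX a b D γ θ k) := fun k =>
    (hB a b D γ 0 ha hab).2.2.2.2.2.2 k
  have hlow : ∀ (θ : ℝ) (k : ℤ), c ^ 2 * (k : ℝ) ^ 2 ≤ (XX a b D γ θ k) ^ 2 := by
    intro θ k
    obtain ⟨h0, -, -, h4, -⟩ := hB a b D γ θ ha hab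
    rcases le_total 0 k with hk | hk
    · have h5 := (h4 0 k hk).1
      rw [h0, ← hcdef] at h5
      simp only [sub_zero] at h5
      have hk' : (0 : ℝ) ≤ k := by exact_mod_cast hk
      rw [← mul_pow]
      exact pow_le_pow_left₀ (by positivity) h5 2
    · have h5 := (h4 k 0 hk).1
      rw [h0, ← hcdef] at h5
      simp only [zero_sub, Int.cast_neg] at h5
      have hk' : (0 : ℝ) ≤ -(k : ℝ) := by
        have : (k : ℝ) ≤ 0 := by exact_mod_cast hk
        linarith
      have h6 : (c * -(k : ℝ)) ^ 2 ≤ (-XX a b D γ θ k) ^ 2 :=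
        pow_le_pow_left₀ (by positivity) h5 2
      nlinarith
  set ν : ℤ → Measure ℝ := fun k =>
    Measure.map (fun θ => XX a b D γ θ k) (volume.restrict (Ico (0 : ℝ) 1)) with hν
  set g : ℝ → ℝ≥0∞ := fun z => ENNReal.ofReal (1 / (1 + z ^ 2)) with hg
  have hgm : Measurable g := by
    apply Measurable.ennreal_ofReal
    fun_prop
  have hgν : ∀ k, ∫⁻ z, g z ∂(ν k) ≤ ENNReal.ofReal (1 / (1 + c ^ 2 * (k : ℝ) ^ 2)) := by
    intro k
    rw [hν, lintegral_map hgm (hmeas k)]
    calc ∫⁻ θ in Ico (0 : ℝ) 1, g (XX a b D γ θ k)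
        ≤ ∫⁻ _θ in Ico (0 : ℝ) 1, ENNReal.ofReal (1 / (1 + c ^ 2 * (k : ℝ) ^ 2)) := by
          refine lintegral_mono fun θ => ?_
          rw [hg]
          refine ENNReal.ofReal_le_ofReal ?_
          have := hlow θ k
          exact one_div_le_one_div_of_le (by positivity) (by linarith)
      _ = ENNReal.ofReal (1 / (1 + c ^ 2 * (k : ℝ) ^ 2)) := by simp
  have hfin : ∫⁻ z, g z ∂(eta a b D γ) < (⊤ : ℝ≥0∞) := by
    unfold eta
    rw [lintegral_smul_measure, lintegral_sum_measure]
    refine ENNReal.mul_lt_top ENNReal.ofReal_lt_top ?_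
    refine lt_of_le_of_lt (ENNReal.tsum_le_tsum hgν) ?_
    rw [← ENNReal.ofReal_tsum_of_nonneg (fun k => by positivity) (summable_aux c hc)]
    exact ENNReal.ofReal_lt_top
  have hint : ∀ f : ℝ → ℂ, Dec f → Integrable f (eta a b D γ) := by
    intro f hf
    obtain ⟨hfc, C, hC⟩ := hf
    refine ⟨hfc.aestronglyMeasurable, ?_⟩
    rw [hasFiniteIntegral_iff_norm]
    have hC0 : 0 ≤ C := by
      have := (norm_nonneg _).trans (hC 0)
      simpa using this
    calc ∫⁻ z, ENNReal.ofReal ‖f z‖ ∂(eta a b D γ)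
        ≤ ∫⁻ z, ENNReal.ofReal C * g z ∂(eta a b D γ) := by
          refine lintegral_mono fun z => ?_
          rw [hg, ← ENNReal.ofReal_mul hC0]
          refine ENNReal.ofReal_le_ofReal ?_
          rw [mul_one_div]
          exact hC z
      _ = ENNReal.ofReal C * ∫⁻ z, g z ∂(eta a b D γ) := lintegral_const_mul _ hgm
      _ < (⊤ : ℝ≥0∞) := ENNReal.mul_lt_top ENNReal.ofReal_lt_top hfin
  refine ⟨⟨fun x => ⟨Metric.ball x 1, Metric.ball_mem_nhds x one_pos, ?_⟩⟩, fun f hf =>
    ⟨hint f hf, ?_⟩⟩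
  · have h1 : Metric.ball x 1 ⊆ {z | ENNReal.ofReal (1 / (1 + (|x| + 1) ^ 2)) ≤ g z} := by
      intro z hz
      simp only [Set.mem_ofPred_eq]
      rw [hg]
      refine ENNReal.ofReal_le_ofReal ?_
      have h2 : |z| ≤ |x| + 1 := by
        have h3 : |z - x| < 1 := by simpa [Real.dist_eq] using hz
        have h4 : |z| ≤ |z - x| + |x| := by
          have := abs_add_le (z - x) x
          simpa using this
        linarith
      have h3 : z ^ 2 ≤ (|x| + 1) ^ 2 := by
        rw [← sq_abs z]
        exact pow_le_pow_left₀ (abs_nonneg _) h2 2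
      exact one_div_le_one_div_of_le (by positivity) (by linarith)
    have h2 := meas_ge_le_lintegral_div (μ := eta a b D γ) hgm.aemeasurable
      (ε := ENNReal.ofReal (1 / (1 + (|x| + 1) ^ 2)))
      (by
        have : 0 < 1 / (1 + (|x| + 1) ^ 2) := by positivity
        simpa using this) ENNReal.ofReal_ne_top
    refine lt_of_le_of_lt ((measure_mono h1).trans h2) ?_
    refine ENNReal.div_lt_top hfin.ne ?_
    have : 0 < 1 / (1 + (|x| + 1) ^ 2) := by positivity
    simpa using this
  · have h1 := hint f hf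
    have hpos : ENNReal.ofReal (1 / (a + b * D)) ≠ 0 := by
      have : 0 < 1 / (a + b * D) := by positivity
      simpa using hlam
    have h2 : Integrable f (Measure.sum ν) := by
      unfold eta at h1
      exact (integrable_smul_measure hpos ENNReal.ofReal_ne_top).1 h1
    unfold eta
    rw [integral_smul_measure, ← (hasSum_integral_measure h2).tsum_eq]
    rw [ENNReal.toReal_ofReal (by positivity), Complex.real_smul]
    congr 1
    · push_cast; rfl
    · refine tsum_congr fun k => ?_
      exact integral_map (hmeas k).aemeasurable hf.1.aestronglyMeasurable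

end Pool.Agent.H152R3.KD.ETA
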