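import Pool.Agent.H152R3.KD.Stmts

/-! Project KD, task FC: infinitely many odd Fourier coefficients of a parity transfer function. -/

set_option autoImplicit false

open MeasureTheory Filter Topology Set

namespace Pool.Agent.H152R3.KD.FCp

/-- `e(-t x)` -/
noncomputable def ee (t : ℤ) (x : ℝ) : ℂ := Complex.exp (-(2 * Real.pi * t * x : ℝ) * Complex.I)

lemma ee_cont (t : ℤ) : Continuous (ee t) := by
  unfold ee
  fun_prop

lemma norm_ee (t : ℤ) (x : ℝ) : ‖ee t x‖ = 1 := by
  unfold ee
  rw [← Complex.ofReal_neg, Complex.norm_exp_ofReal_mul_I]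

lemma ee_mul (s t : ℤ) (x : ℝ) : ee s x * ee t x = ee (s + t) x := by
  unfold ee
  rw [← Complex.exp_add]
  congr 1
  push_cast
  ring

lemma ee_add (t : ℤ) (x y : ℝ) : ee t (x + y) = ee t x * ee t y := by
  unfold ee
  rw [← Complex.exp_add]
  congr 1
  push_cast
  ring

lemma ee_one (t : ℤ) : ee t 1 = 1 := by
  unfold ee
  rw [Complex.exp_eq_one_iff]
  refine ⟨-t, ?_⟩
  push_cast
  ring

lemma ee_zero (x : ℝ) : ee 0 x = 1 := by
  unfold ee
  simp

lemma ee_half (t : ℤ) : ee t (1 / 2) = (-1) ^ t := by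
  unfold ee
  have : (-(2 * Real.pi * t * (1 / 2) : ℝ) * Complex.I : ℂ) = (-t : ℤ) * (Real.pi * Complex.I) := by
    push_cast
    ring
  rw [this, Complex.exp_int_mul, Complex.exp_pi_mul_I, zpow_neg, ← inv_zpow]
  norm_num

lemma ee_half_odd {t : ℤ} (h : Odd t) : ee t (1 / 2) = -1 := by
  rw [ee_half, h.neg_one_zpow]

lemma ee_half_even {t : ℤ} (h : Even t) : ee t (1 / 2) = 1 := by
  rw [ee_half, h.neg_one_zpow]

lemma integral_ee (m : ℤ) : ∫ x in (0 : ℝ)..1, ee m x = if m = 0 then 1 else 0 := by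
  split_ifs with h
  · subst h
    simp [ee_zero]
  · have hc : (-(2 * Real.pi * m) * Complex.I : ℂ) ≠ 0 := by
      have h1 : (Real.pi : ℂ) ≠ 0 := by exact_mod_cast Real.pi_ne_zero
      have h2 : (m : ℂ) ≠ 0 := by exact_mod_cast h
      simp [h1, h2]
    have h1 : ∫ x in (0 : ℝ)..1, ee m x = ∫ x in (0 : ℝ)..1,
        Complex.exp ((-(2 * Real.pi * m) * Complex.I : ℂ) * x) := by
      refine intervalIntegral.integral_congr fun x _ => ?_
      unfold ee
      congr 1
      push_cast
      ring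
    rw [h1, integral_exp_mul_complex hc]
    have h2 : Complex.exp ((-(2 * Real.pi * m) * Complex.I : ℂ) * (1 : ℝ)) = 1 := by
      have := ee_one m
      unfold ee at this
      rw [← this]
      congr 1
      push_cast
      ring
    rw [h2]
    simp

variable {γ D : ℝ} {ξ : ℝ → ℝ}

lemma fc_eq (ξ : ℝ → ℝ) (t : ℤ) : fc ξ t = ∫ x in (0 : ℝ)..1, ee t x * ξ x := by
  rw [intervalIntegral.integral_of_le zero_le_one, integral_Ioc_eq_integral_Ioo,
    ← integral_Ico_eq_integral_Ioo]
  rfl

lemma xi_norm (h : IsXi D γ ξ) (x : ℝ) : ‖(ξ x : ℂ)‖ = 1 := by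
  rcases h.val x with h1 | h1 <;> simp [h1]

lemma intg (h : IsXi D γ ξ) (t : ℤ) (d a b : ℝ) :
    IntervalIntegrable (fun x => ee t x * (ξ (x + d) : ℂ)) volume a b := by
  have hm : Measurable (fun x => ee t x * (ξ (x + d) : ℂ)) := by
    have h1 := h.meas
    have h2 := (ee_cont t).measurable
    fun_prop
  refine (intervalIntegrable_const (c := (1 : ℝ))).mono_fun hm.aestronglyMeasurable ?_
  refine Eventually.of_forall fun x => ?_
  show ‖ee t x * (ξ (x + d) : ℂ)‖ ≤ ‖(1 : ℝ)‖
  rw [norm_mul, norm_ee, xi_norm h]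
  simp

lemma shifted (h : IsXi D γ ξ) (t : ℤ) :
    ∫ x in (0 : ℝ)..1, ee t x * (ξ (x + 1 / 2) : ℂ) = ee t (1 / 2) * fc ξ t := by
  have hhalf : ee t (-(1 / 2)) = ee t (1 / 2) := by
    have h1 := ee_add t (-(1 / 2)) 1
    rw [ee_one, mul_one] at h1
    rw [← h1]
    norm_num
  have h1 : ∀ x : ℝ, ee t x * (ξ (x + 1 / 2) : ℂ) =
      (fun y => ee t (1 / 2) * (ee t y * (ξ y : ℂ))) (x + 1 / 2) := by
    intro x
    have : ee t x = ee t (1 / 2) * ee t (x + 1 / 2) := by
      rw [← hhalf, mul_comm, ← ee_add]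
      norm_num
    simp only
    rw [this]
    ring
  simp_rw [h1]
  rw [intervalIntegral.integral_comp_add_right (fun y => ee t (1 / 2) * (ee t y * (ξ y : ℂ))),
    intervalIntegral.integral_const_mul, fc_eq]
  congr 1
  have hper : Function.Periodic (fun y => ee t y * (ξ y : ℂ)) 1 := by
    intro y
    simp only
    rw [ee_add, ee_one, mul_one, h.per]
  have := hper.intervalIntegral_add_eq (0 + 1 / 2) 0
  rw [zero_add] at this
  rw [show (1 : ℝ) + 1 / 2 = 1 / 2 + 1 by norm_num, zero_add]
  simpa only [zero_add] using this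

theorem taskFC : TaskFC := by
  intro γ D ξ hD0 hD1 h
  intro hfin
  set S : Finset ℤ := hfin.toFinset with hS
  have hSmem : ∀ t, t ∈ S ↔ Odd t ∧ fc ξ t ≠ 0 := fun t => by simp [hS]
  set p : ℝ → ℂ := fun x => ∑ t ∈ S, fc ξ t * ee (-t) x with hp
  have hpc : Continuous p := by
    refine continuous_finsetSum _ fun t _ => ?_
    exact continuous_const.mul (ee_cont _)
  set u : ℝ → ℂ := fun x => ((ξ x : ℂ) - ξ (x + 1 / 2)) / 2 with hu
  set w : ℝ → ℂ := fun x => u x - p x with hw
  have hum : Measurable u := by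
    have h1 := h.meas
    fun_prop
  have hwm : Measurable w := hum.sub hpc.measurable
  -- all Fourier coefficients of `w` vanish
  have hcoef : ∀ n : ℤ, ∫ x in (0 : ℝ)..1, ee n x * w x = 0 := by
    intro n
    have e1 : ∀ x, ee n x * w x = (1 / 2) * (ee n x * (ξ (x + 0) : ℂ)) -
        (1 / 2) * (ee n x * (ξ (x + 1 / 2) : ℂ)) - ∑ t ∈ S, fc ξ t * ee (n + -t) x := by
      intro x
      rw [hw, hu, hp]
      simp only [add_zero]
      rw [mul_sub, Finset.mul_sum]
      congr 1
      · ring
      · refine Finset.sum_congr rfl fun t _ => ?_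
        rw [← ee_mul]
        ring
    simp_rw [e1]
    have i1 := (intg h n 0 0 1).const_mul (1 / 2)
    have i2 := (intg h n (1 / 2) 0 1).const_mul (1 / 2)
    have i3 : ∀ t ∈ S, IntervalIntegrable (fun x => fc ξ t * ee (n + -t) x) volume 0 1 := by
      intro t _
      exact (continuous_const.mul (ee_cont _)).intervalIntegrable _ _
    have i4 : IntervalIntegrable (fun x => ∑ t ∈ S, fc ξ t * ee (n + -t) x) volume 0 1 := by
      refine Continuous.intervalIntegrable ?_ _ _
      refine continuous_finsetSum _ fun t _ => ?_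
      exact continuous_const.mul (ee_cont _)
    rw [intervalIntegral.integral_sub (i1.sub i2) i4,
      intervalIntegral.integral_sub i1 i2, intervalIntegral.integral_const_mul,
      intervalIntegral.integral_const_mul, shifted h, intervalIntegral.integral_finsetSum i3]
    simp only [add_zero, intervalIntegral.integral_const_mul, integral_ee]
    rw [← fc_eq]
    rcases Int.even_or_odd n with hn | hn
    · rw [ee_half_even hn]
      have : ∀ t ∈ S, fc ξ t * (if n + -t = 0 then (1 : ℂ) else 0) = 0 := by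
        intro t ht
        rw [if_neg, mul_zero]
        intro h0
        have : n = t := by omega
        subst this
        exact (Int.not_odd_iff_even.2 hn) ((hSmem n).1 ht).1
      rw [Finset.sum_eq_zero this]
      ring
    · rw [ee_half_odd hn]
      by_cases hz : fc ξ n = 0
      · have : ∀ t ∈ S, fc ξ t * (if n + -t = 0 then (1 : ℂ) else 0) = 0 := by
          intro t ht
          rw [if_neg, mul_zero]
          intro h0
          have : n = t := by omega
          subst this
          exact ((hSmem n).1 ht).2 hz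
        rw [Finset.sum_eq_zero this, hz]
        ring
      · have hnS : n ∈ S := (hSmem n).2 ⟨hn, hz⟩
        rw [Finset.sum_eq_single n]
        · rw [if_pos (by ring)]
          ring
        · intro t _ htn
          rw [if_neg, mul_zero]
          intro h0
          apply htn
          omega
        · intro h0
          exact absurd hnS h0
  -- boundedness
  have hbd : ∃ C : ℝ, ∀ x, ‖w x‖ ≤ C := by
    refine ⟨1 + ∑ t ∈ S, ‖fc ξ t‖, fun x => ?_⟩
    rw [hw]
    refine (norm_sub_le _ _).trans ?_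
    refine add_le_add ?_ ?_
    · rw [hu]
      simp only [norm_div]
      have h1 : ‖(ξ x : ℂ) - ξ (x + 1 / 2)‖ ≤ 1 + 1 := by
        refine (norm_sub_le _ _).trans ?_
        rw [xi_norm h, xi_norm h]
      have h2 : ‖(2 : ℂ)‖ = 2 := by simp
      rw [h2]
      linarith
    · rw [hp]
      refine (norm_sum_le _ _).trans ?_
      refine Finset.sum_le_sum fun t _ => ?_
      rw [norm_mul, norm_ee, mul_one]
  obtain ⟨C, hC⟩ := hbd
  have hL2 : MemLp w 2 (volume.restrict (Ioc (0 : ℝ) 1)) :=
    MemLp.of_bound hwm.aestronglyMeasurable C (Eventually.of_forall hC)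
  have hzero : ∫ x in (0 : ℝ)..1, ‖w x‖ ^ 2 = 0 := by
    have h1 := tsum_sq_fourierCoeffOn (zero_lt_one (α := ℝ)) hL2
    have h2 : ∀ i : ℤ, fourierCoeffOn (zero_lt_one (α := ℝ)) w i = 0 := by
      intro i
      rw [fourierCoeffOn_eq_integral]
      have h3 : ∀ x : ℝ, fourier (-i) (x : AddCircle ((1 : ℝ) - 0)) • w x = ee i x * w x := by
        intro x
        rw [fourier_coe_apply, smul_eq_mul]
        congr 1
        unfold ee
        congr 1
        push_cast
        ring
      simp_rw [h3, hcoef i]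
      simp
    simp_rw [h2] at h1
    simpa using h1.symm
  -- `w = 0` a.e. on `(0,1)`
  have hae : ∀ᵐ x ∂(volume.restrict (Ioo (0 : ℝ) 1)), w x = 0 := by
    rw [intervalIntegral.integral_of_le zero_le_one, integral_Ioc_eq_integral_Ioo] at hzero
    have hint : Integrable (fun x => ‖w x‖ ^ 2) (volume.restrict (Ioo (0 : ℝ) 1)) := by
      refine Integrable.of_bound (hwm.norm.pow_const 2).aestronglyMeasurable (C ^ 2)
        (Eventually.of_forall fun x => ?_)
      rw [Real.norm_eq_abs, abs_of_nonneg (by positivity)]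
      exact pow_le_pow_left₀ (norm_nonneg _) (hC x) 2
    rw [integral_eq_zero_iff_of_nonneg (fun x => by positivity) hint] at hzero
    filter_upwards [hzero] with x hx
    simpa using hx
  -- `p` takes values in `{-1,0,1}`
  have hK : IsClosed ({-1, 0, 1} : Set ℂ) := (Set.toFinite _).isClosed
  have huK : ∀ x, u x ∈ ({-1, 0, 1} : Set ℂ) := by
    intro x
    rw [hu]
    rcases h.val x with h1 | h1 <;> rcases h.val (x + 1 / 2) with h2 | h2 <;>
      simp only [h1, h2, mem_insert_iff, mem_singleton_iff] <;> norm_num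
  have hpK : ∀ x ∈ Ioo (0 : ℝ) 1, p x ∈ ({-1, 0, 1} : Set ℂ) := by
    by_contra hcon
    push Not at hcon
    obtain ⟨x0, hx0, hx1⟩ := hcon
    have ho : IsOpen (Ioo (0 : ℝ) 1 ∩ p ⁻¹' ({-1, 0, 1} : Set ℂ)ᶜ) :=
      isOpen_Ioo.inter (hK.isOpen_compl.preimage hpc)
    have hnull : volume (Ioo (0 : ℝ) 1 ∩ p ⁻¹' ({-1, 0, 1} : Set ℂ)ᶜ) = 0 := by
      rw [ae_restrict_iff' measurableSet_Ioo] at hae
      refine measure_mono_null ?_ hae
      rintro x ⟨hx2, hx3⟩
      simp only [mem_compl_iff, mem_ofPred_eq]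
      intro h4
      apply hx3
      have h5 := h4 hx2
      rw [hw] at h5
      have h6 : p x = u x := (sub_eq_zero.1 h5).symm
      rw [h6]
      exact huK x
    have hnull := (ho.measure_eq_zero_iff volume).1 hnull
    have : x0 ∈ (∅ : Set ℝ) := by
      rw [← hnull]
      exact ⟨hx0, hx1⟩
    exact this
  -- `p` is constant, hence zero on `(0,1)`
  have hp0 : ∀ x ∈ Ioo (0 : ℝ) 1, p x = 0 := by
    have hconst : ∀ x ∈ Ioo (0 : ℝ) 1, ∀ y ∈ Ioo (0 : ℝ) 1, p x = p y := by
      intro x hx y hy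
      have hd : IsDiscrete ({-1, 0, 1} : Set ℂ) := (Set.toFinite _).isDiscrete
      exact isPreconnected_Ioo.constant_of_mapsTo hd hpc.continuousOn hpK hx hy
    have hq : p (3 / 4) = - p (1 / 4) := by
      rw [hp]
      simp only
      rw [← Finset.sum_neg_distrib]
      refine Finset.sum_congr rfl fun t ht => ?_
      have ho : Odd (-t) := ((hSmem t).1 ht).1.neg
      rw [show (3 / 4 : ℝ) = 1 / 4 + 1 / 2 by norm_num, ee_add, ee_half_odd ho]
      ring
    have hq2 : p (3 / 4) = p (1 / 4) :=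
      hconst _ (by constructor <;> norm_num) _ (by constructor <;> norm_num)
    have hq3 : p (1 / 4) = 0 := by
      rw [hq2] at hq
      have : (2 : ℂ) * p (1 / 4) = 0 := by linear_combination hq
      simpa using this
    intro x hx
    rw [hconst x hx (1 / 4) (by constructor <;> norm_num), hq3]
  -- `ξ x = ξ (x + 1/2)` a.e.
  have hA : ∀ᵐ x : ℝ, x ∈ Ioo (0 : ℝ) 1 → ξ x = ξ (x + 1 / 2) := by
    rw [ae_restrict_iff' measurableSet_Ioo] at hae
    filter_upwards [hae] with x hx hx1
    have h1 := hx hx1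
    rw [hw] at h1
    simp only [hp0 x hx1, sub_zero] at h1
    rw [hu] at h1
    simp only [div_eq_zero_iff, sub_eq_zero] at h1
    rcases h1 with h1 | h1
    · exact_mod_cast h1
    · norm_num at h1
  have hB : ∀ᵐ x : ℝ, ξ x = ξ (x + 1 / 2) := by
    have h1 : ∀ᵐ x : ℝ, ∀ k : ℤ, (x - k) ∈ Ioo (0 : ℝ) 1 → ξ (x - k) = ξ (x - k + 1 / 2) := by
      rw [ae_all_iff]
      intro k
      exact (measurePreserving_sub_right volume (k : ℝ)).quasiMeasurePreserving.ae hA
    have h2 : ∀ᵐ x : ℝ, x ∉ range (fun k : ℤ => (k : ℝ)) := (countable_range _).ae_notMem _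
    have hper : Function.Periodic ξ 1 := h.per
    filter_upwards [h1, h2] with x hx1 hx2
    have h3 : x - ⌊x⌋ ∈ Ioo (0 : ℝ) 1 := by
      constructor
      · rcases (Int.floor_le x).lt_or_eq with h4 | h4
        · linarith
        · exact absurd ⟨⌊x⌋, h4⟩ hx2
      · have := Int.lt_floor_add_one x
        linarith
    have h4 := hx1 ⌊x⌋ h3
    have h5 : ξ (x - ⌊x⌋) = ξ x := by
      have := hper.sub_zsmul_eq (x := x) ⌊x⌋
      simpa using this
    have h6 : ξ (x - ⌊x⌋ + 1 / 2) = ξ (x + 1 / 2) := by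
      have := hper.sub_zsmul_eq (x := x + 1 / 2) ⌊x⌋
      simp only [zsmul_eq_mul, mul_one] at this
      rw [← this]
      congr 1
      ring
    rw [← h5, ← h6]
    exact h4
  -- contradiction
  have hC1 := h.cob
  have hC2 : ∀ᵐ x : ℝ, ξ (x + 1 / 2 + γ) = (if Int.fract (x + 1 / 2) < D then -1 else 1) *
      ξ (x + 1 / 2) :=
    (measurePreserving_add_right volume (1 / 2 : ℝ)).quasiMeasurePreserving.ae hC1
  have hC3 : ∀ᵐ x : ℝ, ξ (x + γ) = ξ (x + γ + 1 / 2) :=
    (measurePreserving_add_right volume γ).quasiMeasurePreserving.ae hB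
  have hne : (ae (volume.restrict (Ioo (D - 1 / 2) (1 / 2)))).NeBot := by
    rw [ae_neBot]
    intro h0
    rw [Measure.restrict_eq_zero, Real.volume_Ioo] at h0
    simp only [ENNReal.ofReal_eq_zero] at h0
    linarith
  have hall : ∀ᵐ x ∂(volume.restrict (Ioo (D - 1 / 2) (1 / 2))), False := by
    filter_upwards [ae_restrict_mem measurableSet_Ioo, ae_restrict_of_ae hB, ae_restrict_of_ae hC1,
      ae_restrict_of_ae hC2, ae_restrict_of_ae hC3] with x hx hx1 hx2 hx3 hx4
    obtain ⟨ha, hb⟩ := hx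
    have f1 : Int.fract x = x := Int.fract_eq_self.2 ⟨by linarith, by linarith⟩
    have f2 : Int.fract (x + 1 / 2) = x + 1 / 2 := Int.fract_eq_self.2 ⟨by linarith, by linarith⟩
    rw [f1, if_pos (by linarith)] at hx2
    rw [f2, if_neg (by linarith)] at hx3
    have h5 : x + γ + 1 / 2 = x + 1 / 2 + γ := by ring
    rw [h5] at hx4
    have h6 : ξ x = 0 := by linarith
    rcases h.val x with h7 | h7 <;> rw [h7] at h6 <;> norm_num at h6
  exact hall.exists.choose_spec

end Pool.Agent.H152R3.KD.FCp
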