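import Pool.Agent.H152R3.KD.Stmts

/-! Task FDEC of project KD (helper220). -/

set_option autoImplicit false

open MeasureTheory Filter Topology Set
open scoped FourierTransform ContDiff SchwartzMap

namespace Pool.Agent.H152R3.KD.FDEC

open Pool.Agent.H152R3.KD

theorem dec_schwartz (f : 𝓢(ℝ, ℂ)) : Dec (f : ℝ → ℂ) := by
  refine ⟨f.continuous, ?_⟩
  obtain ⟨C0, hC0⟩ := f.decay 0 0
  obtain ⟨C2, hC2⟩ := f.decay 2 0
  refine ⟨C0 + C2, fun x => ?_⟩
  have h0 := hC0.2 x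
  have h2 := hC2.2 x
  rw [norm_iteratedFDeriv_zero] at h0 h2
  rw [pow_zero, one_mul] at h0
  rw [Real.norm_eq_abs, sq_abs] at h2
  have hpos : 0 < 1 + x ^ 2 := by positivity
  rw [le_div_iff₀ hpos]
  linarith [mul_comm (x ^ 2) ‖f x‖]

theorem taskFDEC : TaskFDEC := by
  intro φ hφ hs
  have h1 := dec_schwartz (hs.toSchwartzMap hφ)
  have h2 := dec_schwartz (𝓕 (hs.toSchwartzMap hφ))
  exact ⟨h1, h2⟩

end Pool.Agent.H152R3.KD.FDEC
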