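import Pool.Agent.H152R3.KD.Stmts

set_option autoImplicit false

open MeasureTheory Filter Topology Set
open scoped FourierTransform ContDiff CompactlySupported

namespace Pool.Agent.H152R3.KD.MU

/-- exponential sum -/
noncomputable def S (Λ : Set ℝ) (T s : ℝ) : ℂ :=
  ∑ᶠ x ∈ Λ ∩ Icc (-T) T, Complex.exp (-(2 * Real.pi * s * x : ℝ) * Complex.I)

/-- periodogram -/
noncomputable def I (Λ : Set ℝ) (T s : ℝ) : ℝ := 1 / (2 * T) * ‖S Λ T s‖ ^ 2

theorem I_nonneg (Λ : Set ℝ) {T : ℝ} (hT : 0 < T) (s : ℝ) : 0 ≤ I Λ T s := by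
  unfold I; positivity

theorem I_cont (Λ : Set ℝ) (T : ℝ) (hfin : (Λ ∩ Icc (-T) T).Finite) : Continuous (I Λ T) := by
  have h : S Λ T = fun s => ∑ x ∈ hfin.toFinset, Complex.exp (-(2 * Real.pi * s * x : ℝ) * Complex.I) := by
    funext s
    exact finsum_mem_eq_finite_toFinset_sum _ hfin
  have h2 : Continuous (S Λ T) := by
    rw [h]
    refine continuous_finsetSum _ fun x _ => ?_
    fun_prop
  unfold I
  exact continuous_const.mul (h2.norm.pow 2)

theorem loc (hPER : TaskPER) (hFDEC : TaskFDEC) (Λ : Set ℝ) (η : Measure ℝ)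
    (hfin : ∀ T : ℝ, (Λ ∩ Icc (-T) T).Finite) (hconv : Conv Λ η) (R : ℝ) (hR : 0 < R) :
    ∃ C : ℝ, ∀ᶠ T : ℝ in atTop, ∫ s in Icc (-R) R, I Λ T s ≤ C := by
  let b : ContDiffBump (0 : ℝ) := ⟨R, R + 1, hR, by linarith⟩
  have hb : Continuous (fun s => b s) := b.continuous
  have hφ : ContDiff ℝ ∞ (fun s : ℝ => ((b s : ℝ) : ℂ)) :=
    Complex.ofRealCLM.contDiff.comp b.contDiff
  have hbs : HasCompactSupport (fun s => b s) := b.hasCompactSupport
  have hφs : HasCompactSupport (fun s : ℝ => ((b s : ℝ) : ℂ)) :=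
    hbs.comp_left (g := fun x : ℝ => (x : ℂ)) Complex.ofReal_zero
  have hlim := (hconv _ (hFDEC _ hφ hφs).2).2
  refine ⟨‖∫ z, 𝓕 (fun s : ℝ => ((b s : ℝ) : ℂ)) z ∂η‖ + 1, ?_⟩
  filter_upwards [hlim.norm.eventually_le_const (lt_add_one _), eventually_gt_atTop (0 : ℝ)] with T h1 hT
  refine le_trans ?_ h1
  rw [hPER Λ T hT (hfin T) _ hφ hφs]
  have e1 : (fun s : ℝ => ((b s : ℝ) : ℂ) * ((1 / (2 * T) *
      ‖∑ᶠ x ∈ Λ ∩ Icc (-T) T, Complex.exp (-(2 * Real.pi * s * x : ℝ) * Complex.I)‖ ^ 2 : ℝ) : ℂ))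
      = fun s : ℝ => ((b s * I Λ T s : ℝ) : ℂ) := by
    funext s
    rw [show ((b s * I Λ T s : ℝ) : ℂ) = ((b s : ℝ) : ℂ) * ((I Λ T s : ℝ) : ℂ) from
      Complex.ofReal_mul _ _]
    rfl
  have e2 : ∫ s : ℝ, ((b s * I Λ T s : ℝ) : ℂ) = ((∫ s : ℝ, b s * I Λ T s : ℝ) : ℂ) := integral_ofReal
  rw [e1, e2, Complex.norm_real]
  have hcont : Continuous (fun s => b s * I Λ T s) := hb.mul (I_cont Λ T (hfin T))
  have hcs : HasCompactSupport (fun s => b s * I Λ T s) := hbs.mul_right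
  have hint : Integrable (fun s => b s * I Λ T s) := hcont.integrable_of_hasCompactSupport hcs
  have h2 : ∫ s in Icc (-R) R, I Λ T s = ∫ s in Icc (-R) R, b s * I Λ T s := by
    apply setIntegral_congr_fun measurableSet_Icc
    intro s hs
    have : b s = 1 := by
      apply b.one_of_mem_closedBall
      rw [Real.closedBall_eq_Icc]
      simpa using hs
    simp only [this, one_mul]
  rw [h2]
  refine le_trans ?_ (Real.le_norm_self _)
  apply setIntegral_le_integral hint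
  exact Eventually.of_forall fun s => mul_nonneg b.nonneg (I_nonneg Λ hT s)

/-- the functional before the limit -/
noncomputable def u (Λ : Set ℝ) (f : C_c(ℝ, ℝ)) (T : ℝ) : ℝ := ∫ s, f s * I Λ T s

theorem integrable_fI (Λ : Set ℝ) (T : ℝ) (hfin : (Λ ∩ Icc (-T) T).Finite) (f : C_c(ℝ, ℝ)) :
    Integrable (fun s => f s * I Λ T s) :=
  (f.continuous.mul (I_cont Λ T hfin)).integrable_of_hasCompactSupport f.hasCompactSupport.mul_right

theorem u_bdd (hPER : TaskPER) (hFDEC : TaskFDEC) (Λ : Set ℝ) (η : Measure ℝ)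
    (hfin : ∀ T : ℝ, (Λ ∩ Icc (-T) T).Finite) (hconv : Conv Λ η) (f : C_c(ℝ, ℝ)) :
    ∃ K : ℝ, ∀ᶠ T : ℝ in atTop, |u Λ f T| ≤ K := by
  obtain ⟨B, hB⟩ := f.continuous.bounded_above_of_compact_support f.hasCompactSupport
  have hB0 : 0 ≤ B := (norm_nonneg _).trans (hB 0)
  obtain ⟨R, hR⟩ := f.hasCompactSupport.isCompact.isBounded.subset_closedBall 0
  set R' : ℝ := max R 1 with hR'
  have hR'0 : 0 < R' := lt_of_lt_of_le one_pos (le_max_right _ _)
  have hsub : tsupport f ⊆ Icc (-R') R' := by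
    intro s hs
    have := hR hs
    rw [Real.closedBall_eq_Icc] at this
    have h1 : R ≤ R' := le_max_left _ _
    constructor
    · linarith [this.1]
    · linarith [this.2]
  obtain ⟨C, hC⟩ := loc hPER hFDEC Λ η hfin hconv R' hR'0
  refine ⟨B * C, ?_⟩
  filter_upwards [hC, eventually_gt_atTop (0 : ℝ)] with T h1 hT
  unfold u
  have h2 : ∫ s, f s * I Λ T s = ∫ s in Icc (-R') R', f s * I Λ T s := by
    symm
    apply setIntegral_eq_integral_of_forall_compl_eq_zero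
    intro s hs
    have : f s = 0 := image_eq_zero_of_notMem_tsupport (fun h => hs (hsub h))
    rw [this, zero_mul]
  rw [h2]
  have hIint : IntegrableOn (I Λ T) (Icc (-R') R') :=
    (I_cont Λ T (hfin T)).continuousOn.integrableOn_compact isCompact_Icc
  calc |∫ s in Icc (-R') R', f s * I Λ T s| ≤ ∫ s in Icc (-R') R', |f s * I Λ T s| :=
        abs_integral_le_integral_abs
    _ ≤ ∫ s in Icc (-R') R', B * I Λ T s := by
        apply setIntegral_mono_on
        · exact ((f.continuous.mul (I_cont Λ T (hfin T))).abs).continuousOn.integrableOn_compact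
            isCompact_Icc
        · exact hIint.const_mul B
        · exact measurableSet_Icc
        · intro s _
          rw [abs_mul, abs_of_nonneg (I_nonneg Λ hT s)]
          exact mul_le_mul_of_nonneg_right (hB s) (I_nonneg Λ hT s)
    _ = B * ∫ s in Icc (-R') R', I Λ T s := integral_const_mul _ _
    _ ≤ B * C := mul_le_mul_of_nonneg_left h1 hB0

/-- the ultrafilter -/
noncomputable def U : Ultrafilter ℝ := Ultrafilter.of atTop

theorem U_le : (U : Filter ℝ) ≤ atTop := Ultrafilter.of_le _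

theorem exists_lim (v : ℝ → ℝ) (h : ∃ K : ℝ, ∀ᶠ T : ℝ in atTop, |v T| ≤ K) :
    ∃ x, Tendsto v U (𝓝 x) := by
  obtain ⟨K, hK⟩ := h
  have h1 : ∀ᶠ T in (U : Filter ℝ), v T ∈ Icc (-K) K := by
    filter_upwards [U_le hK] with T hT
    exact abs_le.mp hT
  obtain ⟨x, _, hx⟩ := (isCompact_Icc (a := -K) (b := K)).ultrafilter_le_nhds (U.map v)
    (by rw [Filter.le_principal_iff]; exact h1)
  exact ⟨x, hx⟩

theorem taskMU : TaskMU := by
  intro hPER hFDEC Λ η hfin hconv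
  have hex : ∀ f : C_c(ℝ, ℝ), ∃ x, Tendsto (u Λ f) U (𝓝 x) := fun f =>
    exists_lim _ (u_bdd hPER hFDEC Λ η hfin hconv f)
  choose L hL using hex
  have hadd : ∀ f g : C_c(ℝ, ℝ), L (f + g) = L f + L g := by
    intro f g
    refine tendsto_nhds_unique (hL (f + g)) (((hL f).add (hL g)).congr ?_)
    intro T
    unfold u
    rw [← integral_add (integrable_fI Λ T (hfin T) f) (integrable_fI Λ T (hfin T) g)]
    apply integral_congr_ae
    exact Eventually.of_forall fun s => by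
      simp [add_mul]
  have hsmul : ∀ (c : ℝ) (f : C_c(ℝ, ℝ)), L (c • f) = c • L f := by
    intro c f
    refine tendsto_nhds_unique (hL (c • f)) (((hL f).const_mul c).congr ?_)
    intro T
    unfold u
    rw [← integral_const_mul]
    apply integral_congr_ae
    exact Eventually.of_forall fun s => by
      simp [mul_assoc]
  let L' : C_c(ℝ, ℝ) →ₗ[ℝ] ℝ := { toFun := L, map_add' := hadd, map_smul' := hsmul }
  have hpos : ∀ f : C_c(ℝ, ℝ), 0 ≤ f → 0 ≤ L' f := by
    intro f hf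
    refine ge_of_tendsto (hL f) ?_
    filter_upwards [U_le (eventually_gt_atTop (0 : ℝ))] with T hT
    apply integral_nonneg
    intro s
    exact mul_nonneg (hf s) (I_nonneg Λ hT s)
  let Φ : C_c(ℝ, ℝ) →ₚ[ℝ] ℝ := PositiveLinearMap.mk₀ L' hpos
  have hreg := RealRMK.regular_rieszMeasure Φ
  refine ⟨RealRMK.rieszMeasure Φ, inferInstance, ?_⟩
  intro φ hφ hφs
  have hF := hconv _ (hFDEC _ hφ hφs).2
  refine ⟨hF.1, ?_⟩
  -- real and imaginary parts
  let f1 : C_c(ℝ, ℝ) := ⟨⟨fun s => (φ s).re, Complex.continuous_re.comp hφ.continuous⟩,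
    hφs.comp_left (g := Complex.re) Complex.zero_re⟩
  let f2 : C_c(ℝ, ℝ) := ⟨⟨fun s => (φ s).im, Complex.continuous_im.comp hφ.continuous⟩,
    hφs.comp_left (g := Complex.im) Complex.zero_im⟩
  have h1 : ∫ s, f1 s ∂(RealRMK.rieszMeasure Φ) = L f1 := RealRMK.integral_rieszMeasure Φ f1
  have h2 : ∫ s, f2 s ∂(RealRMK.rieszMeasure Φ) = L f2 := RealRMK.integral_rieszMeasure Φ f2
  have hφint : Integrable φ (RealRMK.rieszMeasure Φ) :=
    hφ.continuous.integrable_of_hasCompactSupport hφs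
  have h3 : ∫ s, φ s ∂(RealRMK.rieszMeasure Φ) = (L f1 : ℂ) + (L f2 : ℂ) * Complex.I := by
    rw [← h1, ← h2]
    have := integral_re_add_im hφint
    rw [← this]
    rfl
  rw [h3]
  have hlim1 : Tendsto (fun T => ((u Λ f1 T : ℝ) : ℂ) + ((u Λ f2 T : ℝ) : ℂ) * Complex.I) U
      (𝓝 ((L f1 : ℂ) + (L f2 : ℂ) * Complex.I)) := by
    have a1 : Tendsto (fun T => ((u Λ f1 T : ℝ) : ℂ)) U (𝓝 (L f1 : ℂ)) :=
      (Complex.continuous_ofReal.tendsto _).comp (hL f1)
    have a2 : Tendsto (fun T => ((u Λ f2 T : ℝ) : ℂ)) U (𝓝 (L f2 : ℂ)) :=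
      (Complex.continuous_ofReal.tendsto _).comp (hL f2)
    exact a1.add (a2.mul_const _)
  have hlim2 : Tendsto (corr Λ (𝓕 φ)) U (𝓝 (∫ z, 𝓕 φ z ∂η)) := hF.2.mono_left U_le
  refine tendsto_nhds_unique hlim1 (hlim2.congr' ?_)
  filter_upwards [U_le (eventually_gt_atTop (0 : ℝ))] with T hT
  rw [hPER Λ T hT (hfin T) _ hφ hφs]
  have hint : Integrable (fun s : ℝ => φ s * ((I Λ T s : ℝ) : ℂ)) := by
    apply Continuous.integrable_of_hasCompactSupport
    · exact hφ.continuous.mul (Complex.continuous_ofReal.comp (I_cont Λ T (hfin T)))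
    · exact hφs.mul_right
  have h4 := integral_re_add_im hint
  have e1 : (∫ s : ℝ, φ s * ((1 / (2 * T) *
      ‖∑ᶠ x ∈ Λ ∩ Icc (-T) T, Complex.exp (-(2 * Real.pi * s * x : ℝ) * Complex.I)‖ ^ 2 : ℝ) : ℂ))
      = ∫ s : ℝ, φ s * ((I Λ T s : ℝ) : ℂ) := rfl
  rw [e1, ← h4]
  unfold u
  congr 1
  · congr 1
    apply integral_congr_ae
    exact Eventually.of_forall fun s => by
      change RCLike.re (φ s * ((I Λ T s : ℝ) : ℂ)) = (φ s).re * I Λ T s
      simp
  · congr 2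
    apply integral_congr_ae
    exact Eventually.of_forall fun s => by
      change RCLike.im (φ s * ((I Λ T s : ℝ) : ℂ)) = (φ s).im * I Λ T s
      simp

end Pool.Agent.H152R3.KD.MU
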