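import Pool.Agent.H152R3.KD.Stmts

/-!
Correlations of `𝓕 φ` are integrals of `φ` against the periodogram (Task PER).
-/

set_option autoImplicit false

open MeasureTheory Filter Topology Set
open scoped FourierTransform ContDiff

namespace Pool.Agent.H152R3.KD.PER

theorem taskPER : TaskPER := by
  intro Λ T hT hfin φ hφ hc
  unfold corr
  have h1 : ∀ f : ℝ → ℂ, ∑ᶠ x ∈ Λ ∩ Icc (-T) T, f x = ∑ x ∈ hfin.toFinset, f x :=
    fun f => finsum_mem_eq_finite_toFinset_sum f hfin
  simp_rw [h1]
  set s := hfin.toFinset with hs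
  have hF : ∀ w : ℝ, 𝓕 φ w = ∫ v : ℝ, φ v * Complex.exp (-(2 * Real.pi * v * w : ℝ) * Complex.I) := by
    intro w
    rw [Real.fourier_real_eq_integral_exp_smul]
    congr 1
    ext v
    rw [smul_eq_mul, mul_comm]
    congr 2
    push_cast
    ring
  have hint : ∀ w : ℝ, Integrable (fun v : ℝ =>
      φ v * Complex.exp (-(2 * Real.pi * v * w : ℝ) * Complex.I)) := by
    intro w
    apply Continuous.integrable_of_hasCompactSupport
    · have := hφ.continuous
      fun_prop
    · exact hc.mul_right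
  have hS : ∀ v : ℝ, ((‖∑ x ∈ s, Complex.exp (-(2 * Real.pi * v * x : ℝ) * Complex.I)‖ ^ 2 : ℝ) : ℂ) =
      ∑ x ∈ s, ∑ y ∈ s, Complex.exp (-(2 * Real.pi * v * (x - y) : ℝ) * Complex.I) := by
    intro v
    push_cast
    rw [← Complex.mul_conj', map_sum, Finset.sum_mul_sum]
    refine Finset.sum_congr rfl fun x _ => Finset.sum_congr rfl fun y _ => ?_
    rw [← Complex.exp_conj, ← Complex.exp_add]
    congr 1
    simp only [map_mul, map_neg, Complex.conj_ofReal, Complex.conj_I]
    push_cast
    simp only [map_mul, map_neg, Complex.conj_ofReal, Complex.conj_I, map_ofNat]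
    ring
  have hR : ∀ v : ℝ, φ v * ((1 / (2 * T) *
      ‖∑ x ∈ s, Complex.exp (-(2 * Real.pi * v * x : ℝ) * Complex.I)‖ ^ 2 : ℝ) : ℂ) =
      (1 / (2 * (T : ℂ))) * ∑ x ∈ s, ∑ y ∈ s,
        (φ v * Complex.exp (-(2 * Real.pi * v * (x - y) : ℝ) * Complex.I)) := by
    intro v
    rw [Complex.ofReal_mul, hS]
    simp_rw [← Finset.mul_sum]
    push_cast
    ring
  simp_rw [hR]
  rw [integral_const_mul, integral_finsetSum]
  · congr 1
    refine Finset.sum_congr rfl fun x _ => ?_
    rw [integral_finsetSum]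
    · refine Finset.sum_congr rfl fun y _ => ?_
      rw [hF]
    · intro y _
      exact hint (x - y)
  · intro x _
    apply integrable_finsetSum
    intro y _
    exact hint (x - y)

end Pool.Agent.H152R3.KD.PER
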