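import Pool.Agent.H152R3.KD.Asm

set_option autoImplicit false

open MeasureTheory Filter Topology Set
open scoped FourierTransform ContDiff

namespace Pool.Agent.H152R3.KD.Q2

/-- final statement for Q2 -/
def FinalQ2 : Prop := ∀ D γ x₀ : ℝ, 0 < D → D < 1 → Irrational γ → Kesten D γ →
  (∃ p, IsStaircase D γ x₀ p) ∧ ∀ p, IsStaircase D γ x₀ p → DiffCond (PiH D p)

theorem G_exists (γ : ℝ) (j : ℤ) : ∃ (G : ℝ → ℝ) (B C : ℝ), (∀ θ, |G θ| ≤ B) ∧
    (∀ θ, G (θ + γ) = G θ + (Int.fract (θ - j * γ) - Int.fract θ)) ∧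
    ∀ θ, ∃ N : ℤ, G θ = -j * θ + C + N := by
  obtain ⟨n, rfl | rfl⟩ := j.eq_nat_or_neg
  · refine ⟨fun θ => -∑ i ∈ Finset.range n, Int.fract (θ - ((i + 1 : ℕ) : ℝ) * γ), n,
      ∑ i ∈ Finset.range n, ((i + 1 : ℕ) : ℝ) * γ, ?_, ?_, ?_⟩
    · intro θ
      rw [abs_neg]
      refine (Finset.abs_sum_le_sum_abs _ _).trans ?_
      calc ∑ i ∈ Finset.range n, |Int.fract (θ - ((i + 1 : ℕ) : ℝ) * γ)|
          ≤ ∑ i ∈ Finset.range n, (1 : ℝ) := by
            apply Finset.sum_le_sum
            intro i _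
            rw [abs_of_nonneg (Int.fract_nonneg _)]
            exact (Int.fract_lt_one _).le
        _ = n := by simp
    · intro θ
      have h1 : ∑ i ∈ Finset.range n, Int.fract (θ + γ - ((i + 1 : ℕ) : ℝ) * γ)
          = ∑ i ∈ Finset.range n, Int.fract (θ - (i : ℝ) * γ) := by
        apply Finset.sum_congr rfl
        intro i _
        congr 1
        push_cast
        ring
      have h2 := Finset.sum_range_sub (fun i : ℕ => Int.fract (θ - (i : ℝ) * γ)) n
      rw [Finset.sum_sub_distrib] at h2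
      simp only [h1]
      simp only [Nat.cast_zero, zero_mul, sub_zero] at h2
      push_cast at h2 ⊢
      linarith
    · intro θ
      refine ⟨∑ i ∈ Finset.range n, ⌊θ - ((i + 1 : ℕ) : ℝ) * γ⌋, ?_⟩
      have h1 : ∑ i ∈ Finset.range n, Int.fract (θ - ((i + 1 : ℕ) : ℝ) * γ)
          = n * θ - ∑ i ∈ Finset.range n, ((i + 1 : ℕ) : ℝ) * γ
            - ∑ i ∈ Finset.range n, (⌊θ - ((i + 1 : ℕ) : ℝ) * γ⌋ : ℝ) := by
        have : ∀ i : ℕ, Int.fract (θ - ((i + 1 : ℕ) : ℝ) * γ)
          = θ - ((i + 1 : ℕ) : ℝ) * γ - (⌊θ - ((i + 1 : ℕ) : ℝ) * γ⌋ : ℝ) := fun i => rfl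
        simp only [this, Finset.sum_sub_distrib, Finset.sum_const, Finset.card_range, nsmul_eq_mul]
      simp only [h1]
      push_cast
      ring
  · refine ⟨fun θ => ∑ i ∈ Finset.range n, Int.fract (θ + (i : ℝ) * γ), n,
      ∑ i ∈ Finset.range n, (i : ℝ) * γ, ?_, ?_, ?_⟩
    · intro θ
      refine (Finset.abs_sum_le_sum_abs _ _).trans ?_
      calc ∑ i ∈ Finset.range n, |Int.fract (θ + (i : ℝ) * γ)|
          ≤ ∑ i ∈ Finset.range n, (1 : ℝ) := by
            apply Finset.sum_le_sum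
            intro i _
            rw [abs_of_nonneg (Int.fract_nonneg _)]
            exact (Int.fract_lt_one _).le
        _ = n := by simp
    · intro θ
      have h1 : ∑ i ∈ Finset.range n, Int.fract (θ + γ + (i : ℝ) * γ)
          = ∑ i ∈ Finset.range n, Int.fract (θ + ((i + 1 : ℕ) : ℝ) * γ) := by
        apply Finset.sum_congr rfl
        intro i _
        congr 1
        push_cast
        ring
      have h2 := Finset.sum_range_sub (fun i : ℕ => Int.fract (θ + (i : ℝ) * γ)) n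
      rw [Finset.sum_sub_distrib] at h2
      simp only [h1]
      simp only [Nat.cast_zero, zero_mul, add_zero] at h2
      have h3 : θ - ((-(n : ℤ) : ℤ) : ℝ) * γ = θ + (n : ℝ) * γ := by push_cast; ring
      rw [h3]
      linarith
    · intro θ
      refine ⟨-∑ i ∈ Finset.range n, ⌊θ + (i : ℝ) * γ⌋, ?_⟩
      have h1 : ∑ i ∈ Finset.range n, Int.fract (θ + (i : ℝ) * γ)
          = n * θ + ∑ i ∈ Finset.range n, (i : ℝ) * γ
            - ∑ i ∈ Finset.range n, (⌊θ + (i : ℝ) * γ⌋ : ℝ) := by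
        have : ∀ i : ℕ, Int.fract (θ + (i : ℝ) * γ)
          = θ + (i : ℝ) * γ - (⌊θ + (i : ℝ) * γ⌋ : ℝ) := fun i => rfl
        simp only [this, Finset.sum_sub_distrib, Finset.sum_add_distrib, Finset.sum_const,
          Finset.card_range, nsmul_eq_mul]
      simp only [h1]
      push_cast
      ring

theorem fract_sub (D θ : ℝ) (h0 : 0 < D) (h1 : D < 1) :
    Int.fract (θ - D) = Int.fract θ - D + (if Int.fract θ < D then 1 else 0) := by
  split_ifs with h
  · rw [Int.fract_eq_iff]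
    refine ⟨by linarith [Int.fract_nonneg θ], by linarith, ⌊θ⌋ - 1, ?_⟩
    have := Int.self_sub_floor θ
    push_cast
    linarith
  · rw [Int.fract_eq_iff]
    refine ⟨by linarith, by linarith [Int.fract_lt_one θ], ⌊θ⌋, ?_⟩
    have := Int.self_sub_floor θ
    linarith

theorem X_formula (hBAS : TaskBAS) (a b D γ x : ℝ) (ha : 0 < a) (hab : 0 < a + b) (h0 : 0 < D) (h1 : D < 1)
    (j k : ℤ) (hD : D = j * γ + k) (G : ℝ → ℝ)
    (hG : ∀ θ, G (θ + γ) = G θ + (Int.fract (θ - j * γ) - Int.fract θ)) (n : ℤ) :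
    XX a b D γ x n = (a + b * D) * n + b * (G (x + n * γ) - G x) := by
  obtain ⟨hz, hs, -⟩ := hBAS a b D γ x ha hab
  have hstep : ∀ n : ℤ, (hit D γ x n : ℝ) = D + G (x + (n + 1 : ℤ) * γ) - G (x + n * γ) := by
    intro n
    have e1 : x + ((n + 1 : ℤ) : ℝ) * γ = (x + n * γ) + γ := by push_cast; ring
    rw [e1, hG]
    have e2 : Int.fract (x + n * γ - j * γ) = Int.fract (x + n * γ - D) := by
      rw [hD, show x + n * γ - (j * γ + k) = x + n * γ - j * γ - (k : ℤ) by ring, Int.fract_sub_intCast]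
    rw [e2, fract_sub D _ h0 h1]
    unfold hit
    split_ifs <;> push_cast <;> ring
  induction n using Int.induction_on with
  | zero => rw [hz]; simp
  | succ n ih =>
    rw [hs, ih, hstep]
    push_cast
    ring
  | pred n ih =>
    have h2 := hs (-(n : ℤ) - 1)
    rw [sub_add_cancel, ih, hstep (-(n : ℤ) - 1), sub_add_cancel] at h2
    push_cast at h2 ⊢
    linarith

/-- infinitely many good multiples -/
theorem exists_large (α ε : ℝ) (hε : 0 < ε) (R : ℕ) : ∃ r : ℤ, (R : ℤ) ≤ r ∧ ∃ l : ℤ, |r * α - l| ≤ ε := by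
  obtain ⟨n, hn⟩ := exists_nat_gt (((R : ℝ) + 1) / ε)
  have hn0 : 0 < n := by
    have : (0 : ℝ) < n := lt_of_le_of_lt (by positivity) hn
    exact_mod_cast this
  obtain ⟨l, k, hk0, _, hlk⟩ := Real.exists_int_int_abs_mul_sub_le α hn0
  refine ⟨k * (R + 1), ?_, l * (R + 1), ?_⟩
  · have h1 : (1 : ℤ) ≤ k := hk0
    have h2 : (0 : ℤ) ≤ R := Int.natCast_nonneg R
    nlinarith
  · have e : ((k * (R + 1) : ℤ) : ℝ) * α - ((l * (R + 1) : ℤ) : ℝ) = (k * α - l) * ((R : ℝ) + 1) := by
      push_cast; ring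
    rw [e, abs_mul, abs_of_pos (by positivity : (0 : ℝ) < (R : ℝ) + 1)]
    have h3 : |k * α - l| * ((R : ℝ) + 1) ≤ 1 / ((n : ℝ) + 1) * ((R : ℝ) + 1) :=
      mul_le_mul_of_nonneg_right hlk (by positivity)
    refine h3.trans ?_
    rw [div_mul_eq_mul_div, one_mul, div_le_iff₀ (by positivity)]
    rw [div_lt_iff₀ hε] at hn
    nlinarith

theorem exp_near (t : ℝ) (ht : |t| ≤ 1 / 2) : 1 / 2 ≤ (Complex.exp (-(t : ℝ) * Complex.I)).re := by
  have h1 : (Complex.exp (-(t : ℝ) * Complex.I)).re = Real.cos t := by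
    rw [← Complex.ofReal_neg, Complex.exp_ofReal_mul_I_re, Real.cos_neg]
  rw [h1]
  have := Real.one_sub_sq_div_two_le_cos (x := t)
  have h2 : t ^ 2 ≤ 1 / 4 := by
    rw [← sq_abs]
    have h3 := abs_nonneg t
    nlinarith
  linarith

theorem finalQ2 (hBAS : TaskBAS) (hWEYL : TaskWEYL) (hLIN : TaskLIN) (hCORR1 : TaskCORR1)
    (hCORR2 : TaskCORR2) (hETA : TaskETA) (hFDEC : TaskFDEC) (hPER : TaskPER) (hMU : TaskMU)
    (hATOM : TaskATOM) (hSTAIR : TaskSTAIR) (hCNT : TaskCNT) : FinalQ2 := by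
  intro D γ x₀ hD0 hD1 hirr hK
  obtain ⟨j, k, hD⟩ := hK
  have hNpos : 0 < √((1 - D) ^ 2 + D ^ 2) := Real.sqrt_pos.mpr (by positivity)
  set N : ℝ := √((1 - D) ^ 2 + D ^ 2) with hN
  set a : ℝ := (1 - D) / N with ha
  set b : ℝ := (2 * D - 1) / N with hb
  have ha0 : 0 < a := div_pos (by linarith) hNpos
  have hab0 : 0 < a + b := by
    rw [ha, hb, ← add_div]
    exact div_pos (by linarith) hNpos
  have hb0 : b ≠ 0 := by
    intro h
    rw [hb, div_eq_zero_iff] at h
    rcases h with h | h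
    · -- D = 1/2
      have hj : j = 0 := by
        by_contra hj
        apply hirr
        refine ⟨(1 / 2 - k) / j, ?_⟩
        have hj' : (j : ℝ) ≠ 0 := by exact_mod_cast hj
        push_cast
        field_simp
        linarith
      rw [hj] at hD
      simp only [Int.cast_zero, zero_mul, zero_add] at hD
      have h2 : (2 : ℝ) * k = 1 := by linarith
      have h3 : (2 : ℤ) * k = 1 := by exact_mod_cast h2
      omega
    · exact hNpos.ne' h
  have hyp : Hyp a b D γ := ⟨hD0, hD1, hirr, ha0, hab0⟩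
  have hlam : 0 < a + b * D := by
    have : a + b * D = a * (1 - D) + (a + b) * D := by ring
    rw [this]
    have : 0 < a * (1 - D) := mul_pos ha0 (by linarith)
    have : 0 < (a + b) * D := mul_pos hab0 hD0
    linarith
  obtain ⟨hex, hall⟩ := hSTAIR D γ x₀ hD0 hD1
  refine ⟨hex, ?_⟩
  intro p' hp'
  rw [hall p' hp']
  obtain ⟨hηlf, hη⟩ := hETA hBAS a b D γ hyp
  have hconv : Conv (Lam a b D γ x₀) (eta a b D γ) := by
    intro f hf
    refine ⟨(hη f hf).1, ?_⟩
    rw [(hη f hf).2]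
    exact hCORR2 hBAS hWEYL hLIN hCORR1 a b D γ hyp f hf x₀
  have hfin : ∀ T : ℝ, (Lam a b D γ x₀ ∩ Icc (-T) T).Finite := by
    intro T
    rcases le_or_gt 0 T with hT | hT
    · obtain ⟨A, B, _, h, _⟩ := hCORR1 hBAS a b D γ x₀ ha0 hyp.ab0 T hT
      exact h
    · have : Icc (-T) T = ∅ := Icc_eq_empty (by linarith)
      rw [this, inter_empty]
      exact finite_empty
  obtain ⟨μ, hμ⟩ := hMU hPER hFDEC (Lam a b D γ x₀) (eta a b D γ) hfin hconv
  have hm : 0 < min a (a + b) := lt_min ha0 hab0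
  have hMx : 0 < max a (a + b) := lt_max_of_lt_left ha0
  -- atoms
  obtain ⟨G, Bd, Cst, hGb, hGc, hGi⟩ := G_exists γ j
  have hBd : 0 ≤ Bd := (abs_nonneg _).trans (hGb 0)
  set ε : ℝ := (a + b * D) / (|b| * (8 * Real.pi * (Bd + 1))) with hεdef
  have hbabs : 0 < |b| := abs_pos.mpr hb0
  have hε : 0 < ε := by
    have := Real.pi_pos
    positivity
  have hmain : ∀ r l : ℤ, |r * (a / b) - l| ≤ ε →
      μ {((r : ℝ) * j * γ + r * k + l) / (a + b * D)} ≠ 0 ∧
      |((r : ℝ) * j * γ + r * k + l) / (a + b * D) * b - r| ≤ 1 / (8 * Real.pi * (Bd + 1)) := by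
    intro r l hrl
    set s : ℝ := ((r : ℝ) * j * γ + r * k + l) / (a + b * D) with hs
    have hslam : s * (a + b * D) = (r : ℝ) * j * γ + r * k + l := by
      rw [hs]; field_simp
    set δ : ℝ := s * b - r with hδ
    have hδe : δ * (a + b * D) = -(r * (a / b) - l) * b := by
      have h1 : δ * (a + b * D) = b * (s * (a + b * D)) - r * (a + b * D) := by rw [hδ]; ring
      rw [h1, hslam, hD]
      field_simp
      ring
    have hδb : |δ| ≤ 1 / (8 * Real.pi * (Bd + 1)) := by
      have h1 : |δ| * (a + b * D) ≤ ε * |b| := by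
        rw [← abs_of_pos hlam, ← abs_mul, hδe, abs_mul, abs_neg]
        exact mul_le_mul_of_nonneg_right hrl (abs_nonneg b)
      have h2 : ε * |b| = 1 / (8 * Real.pi * (Bd + 1)) * (a + b * D) := by
        rw [hεdef]
        have := Real.pi_pos
        field_simp
      rw [h2] at h1
      exact le_of_mul_le_mul_right h1 hlam
    refine ⟨?_, hδb⟩
    -- phases
    have hphase : ∀ n : ℤ, 1 / 2 ≤ (Complex.exp (-(2 * Real.pi * s * XX a b D γ x₀ n : ℝ) * Complex.I)).re := by
      intro n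
      obtain ⟨N1, hN1⟩ := hGi (x₀ + n * γ)
      obtain ⟨N0, hN0⟩ := hGi x₀
      have hX := X_formula hBAS a b D γ x₀ ha0 hab0 hD0 hD1 j k hD G hGc n
      have e1 : s * XX a b D γ x₀ n = ((r * k * n + l * n + r * (N1 - N0) : ℤ) : ℝ)
          + δ * (G (x₀ + n * γ) - G x₀) := by
        have h2 : s * XX a b D γ x₀ n = (s * (a + b * D)) * n + r * (G (x₀ + n * γ) - G x₀)
            + δ * (G (x₀ + n * γ) - G x₀) := by
          rw [hX, hδ]; ring
        have h3 : (r : ℝ) * (G (x₀ + n * γ) - G x₀) = -(r * j * γ) * n + r * (N1 - N0) := by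
          rw [hN1, hN0]; ring
        rw [h2, hslam, h3]
        push_cast
        ring
      have e2 : Complex.exp (-(2 * Real.pi * s * XX a b D γ x₀ n : ℝ) * Complex.I)
          = Complex.exp (-(2 * Real.pi * (δ * (G (x₀ + n * γ) - G x₀)) : ℝ) * Complex.I) := by
        have e3 : (2 * Real.pi * s * XX a b D γ x₀ n : ℝ) = 2 * Real.pi * (δ * (G (x₀ + n * γ) - G x₀))
            + ((r * k * n + l * n + r * (N1 - N0) : ℤ) : ℝ) * (2 * Real.pi) := by
          rw [mul_assoc, e1]; ring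
        rw [e3]
        have e4 : (-((2 * Real.pi * (δ * (G (x₀ + n * γ) - G x₀))
            + ((r * k * n + l * n + r * (N1 - N0) : ℤ) : ℝ) * (2 * Real.pi) : ℝ) : ℂ)) * Complex.I
            = (-(2 * Real.pi * (δ * (G (x₀ + n * γ) - G x₀)) : ℝ) * Complex.I)
            + ((-(r * k * n + l * n + r * (N1 - N0)) : ℤ) : ℂ) * (2 * Real.pi * Complex.I) := by
          push_cast
          ring
        rw [e4, Complex.exp_add, Complex.exp_int_mul_two_pi_mul_I, mul_one]
      rw [e2]
      apply exp_near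
      have h5 : |G (x₀ + n * γ) - G x₀| ≤ 2 * Bd := by
        have h6 := abs_le.mp (hGb (x₀ + n * γ))
        have h7 := abs_le.mp (hGb x₀)
        rw [abs_le]
        constructor <;> linarith [h6.1, h6.2, h7.1, h7.2]
      have hpi := Real.pi_pos
      rw [abs_mul (2 * Real.pi), abs_mul δ, abs_of_pos (by positivity : (0 : ℝ) < 2 * Real.pi)]
      calc 2 * Real.pi * (|δ| * |G (x₀ + n * γ) - G x₀|)
          ≤ 2 * Real.pi * (1 / (8 * Real.pi * (Bd + 1)) * (2 * Bd)) := by
            apply mul_le_mul_of_nonneg_left _ (by positivity)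
            exact mul_le_mul hδb h5 (abs_nonneg _) (by positivity)
        _ = (1 / 2) * (Bd / (Bd + 1)) := by field_simp; ring
        _ ≤ (1 / 2) * 1 := by
            apply mul_le_mul_of_nonneg_left _ (by norm_num)
            rw [div_le_one (by positivity)]
            linarith
        _ = 1 / 2 := by ring
    refine hATOM hPER hFDEC (Lam a b D γ x₀) μ s (2 / min a (a + b) + 1) (1 / (2 * max a (a + b))) hμ.1
      (by positivity) (by positivity) ?_ ?_ ?_
    · intro T hT
      obtain ⟨A, B, h1, h2, h3, h4', h5, h6⟩ := hCORR1 hBAS a b D γ x₀ ha0 hab0 T (by linarith)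
      refine ⟨h2, ?_⟩
      have h7 := h3 (fun _ => 1)
      rw [finsum_mem_eq_finite_toFinset_sum _ h2, Finset.sum_const, nsmul_eq_mul, mul_one,
        ← Set.ncard_eq_toFinset_card _ h2] at h7
      have h8 : ((Lam a b D γ x₀ ∩ Icc (-T) T).ncard : ℝ) = (A : ℝ) + B + 1 := by
        have h9 : (((Lam a b D γ x₀ ∩ Icc (-T) T).ncard : ℕ) : ℂ) = ((A + B + 1 : ℕ) : ℂ) := by
          rw [h7]
          simp only [Finset.sum_const, Int.card_Icc, nsmul_eq_mul, mul_one]
          congr 1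
          omega
        have h10 : (Lam a b D γ x₀ ∩ Icc (-T) T).ncard = A + B + 1 := by exact_mod_cast h9
        rw [h10]; push_cast; ring
      rw [h8]
      have hA : (A : ℝ) ≤ T / min a (a + b) := by
        rw [le_div_iff₀ hm]; linarith
      have hB : (B : ℝ) ≤ T / min a (a + b) := by
        rw [le_div_iff₀ hm]; linarith
      have : (2 / min a (a + b) + 1) * T = T / min a (a + b) + T / min a (a + b) + T := by ring
      rw [this]
      linarith
    · intro φ hφ hφs
      rw [(hμ.2 φ hφ hφs).2]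
      exact (hconv (𝓕 φ) (hFDEC φ hφ hφs).2).2
    · apply Eventually.frequently
      filter_upwards [eventually_ge_atTop (0 : ℝ)] with T hT
      obtain ⟨A, B, h1, h2, h3, h4', h5, h6⟩ := hCORR1 hBAS a b D γ x₀ ha0 hab0 T hT
      have h7 := h3 (fun y => Complex.exp (-(2 * Real.pi * s * y : ℝ) * Complex.I))
      rw [h7]
      have h8 : (1 / 2 : ℝ) * (A + B + 1) ≤ (∑ n ∈ Finset.Icc (-(A : ℤ)) B,
          Complex.exp (-(2 * Real.pi * s * XX a b D γ x₀ n : ℝ) * Complex.I)).re := by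
        rw [Complex.re_sum]
        calc (1 / 2 : ℝ) * (A + B + 1) = ∑ n ∈ Finset.Icc (-(A : ℤ)) B, (1 / 2 : ℝ) := by
              rw [Finset.sum_const, Int.card_Icc, nsmul_eq_mul]
              have : ((B : ℤ) + 1 - -(A : ℤ)).toNat = A + B + 1 := by omega
              rw [this]; push_cast; ring
          _ ≤ _ := Finset.sum_le_sum fun n _ => hphase n
      have h9 : T ≤ max a (a + b) * (B + 1) := by
        have h10 : ¬ |XX a b D γ x₀ ((B : ℤ) + 1)| ≤ T := by
          rw [← h1, Finset.mem_Icc]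
          omega
        push Not at h10
        obtain ⟨hz, _, _, hinc, hmono, _⟩ := hBAS a b D γ x₀ ha0 hab0
        have h11 := (hinc 0 ((B : ℤ) + 1) (by omega)).2
        have h12 : 0 ≤ XX a b D γ x₀ ((B : ℤ) + 1) := by
          rw [← hz]; exact (hmono.monotone (by omega))
        rw [abs_of_nonneg h12] at h10
        rw [hz, sub_zero] at h11
        push_cast at h11
        linarith
      have h13 : (1 / (2 * max a (a + b))) * T ≤ (1 / 2 : ℝ) * (A + B + 1) := by
        rw [div_mul_eq_mul_div, one_mul, div_le_iff₀ (by positivity)]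
        have : (0 : ℝ) ≤ A := Nat.cast_nonneg A
        nlinarith
      exact h13.trans (h8.trans (Complex.re_le_norm _))
  have hatoms : {s : ℝ | μ {s} ≠ 0}.Infinite := by
    intro hfinite
    -- a bound for the atoms
    obtain ⟨K, hKb⟩ := (hfinite.image (fun s => s * b)).bddAbove
    obtain ⟨R, hR⟩ := exists_nat_gt (K + 1)
    obtain ⟨r, hr, l, hl⟩ := exists_large (a / b) ε hε R
    obtain ⟨h1, h2⟩ := hmain r l hl
    have h3 : ((r : ℝ) * j * γ + r * k + l) / (a + b * D) * b ≤ K :=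
      hKb ⟨_, h1, rfl⟩
    have h4 : 1 / (8 * Real.pi * (Bd + 1)) ≤ 1 := by
      rw [div_le_one (by have := Real.pi_pos; positivity)]
      have := Real.pi_gt_three
      nlinarith
    have h5 := (abs_le.mp h2).1
    have h6 : (R : ℝ) ≤ r := by exact_mod_cast hr
    linarith
  refine ⟨eta a b D γ, μ, ⟨hηlf, ?_⟩, hμ, hCNT μ hμ.1, hatoms⟩
  intro f hf hfs
  exact (hconv f (dec_of_compactSupport f hf hfs)).2

end Pool.Agent.H152R3.KD.Q2
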