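import Pool.Agent.H152R3.KD.Stmts

/-! Task STAIR (helper879). -/

set_option autoImplicit false

open MeasureTheory Filter Topology Set

namespace Pool.Agent.H152R3.KD.STAIR

open Pool.Agent.H152R3.KD

theorem hh_zero (D γ x : ℝ) : hh D γ x 0 = 0 := by simp [hh]

theorem hh_succ (D γ x : ℝ) (n : ℤ) : hh D γ x (n + 1) = hh D γ x n + hit D γ x n := by
  unfold hh
  rcases le_or_gt 0 n with hn | hn
  · have e1 : Finset.Ico (0 : ℤ) (n + 1) = insert n (Finset.Ico 0 n) := by
      ext j
      simp only [Finset.mem_Ico, Finset.mem_insert]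
      omega
    have e2 : Finset.Ico (n + 1) (0 : ℤ) = ∅ := Finset.Ico_eq_empty (by omega)
    have e3 : Finset.Ico n (0 : ℤ) = ∅ := Finset.Ico_eq_empty (by omega)
    rw [e1, e2, e3, Finset.sum_insert (by simp), Finset.sum_empty]
    ring
  · have e1 : Finset.Ico n (0 : ℤ) = insert n (Finset.Ico (n + 1) 0) := by
      ext j
      simp only [Finset.mem_Ico, Finset.mem_insert]
      omega
    have e2 : Finset.Ico (0 : ℤ) (n + 1) = ∅ := Finset.Ico_eq_empty (by omega)
    have e3 : Finset.Ico (0 : ℤ) n = ∅ := Finset.Ico_eq_empty (by omega)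
    rw [e1, e2, e3, Finset.sum_insert (by simp), Finset.sum_empty]
    ring

/-- the explicit staircase -/
noncomputable def P (D γ x : ℝ) (n : ℤ) : ℤ × ℤ := (n - hh D γ x n, hh D γ x n)

theorem P_stair (D γ x : ℝ) : IsStaircase D γ x (P D γ x) := by
  refine ⟨by simp [P, hh_zero], fun n => ?_⟩
  unfold P
  rw [hh_succ]
  unfold hit
  split_ifs with h
  · ext <;> simp
  · ext <;> simp

theorem unique (D γ x : ℝ) (p : ℤ → ℤ × ℤ) (hp : IsStaircase D γ x p) (n : ℤ) :
    p n = P D γ x n := by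
  obtain ⟨h0, h1⟩ := hp
  obtain ⟨k0, k1⟩ := P_stair D γ x
  have hs : ∀ m : ℤ, p (m + 1) - p m = P D γ x (m + 1) - P D γ x m := fun m => (h1 m).trans (k1 m).symm
  induction n using Int.induction_on with
  | zero => rw [h0, k0]
  | succ i ih =>
    have := hs i
    rw [ih] at this
    exact sub_left_injective this
  | pred i ih =>
    have := hs (-(i : ℤ) - 1)
    rw [sub_add_cancel, ih] at this
    exact sub_right_injective this

theorem proj_P (D γ x : ℝ) (n : ℤ) : proj D (P D γ x n) =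
    XX ((1 - D) / √((1 - D) ^ 2 + D ^ 2)) ((2 * D - 1) / √((1 - D) ^ 2 + D ^ 2)) D γ x n := by
  unfold proj XX P
  push_cast
  ring

theorem taskSTAIR : TaskSTAIR := by
  intro D γ x₀ _ _
  refine ⟨⟨P D γ x₀, P_stair D γ x₀⟩, fun p hp => ?_⟩
  have hpe : p = P D γ x₀ := funext fun n => unique D γ x₀ p hp n
  subst hpe
  unfold PiH Lam
  rw [← range_comp]
  congr 1
  funext n
  exact proj_P D γ x₀ n

end Pool.Agent.H152R3.KD.STAIR
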