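import Pool.Agent.H676R4.KDBas
import Pool.Agent.H722R5.KD.TaskWeyl
import Pool.Agent.H689R3.KD.LIN
import Pool.Agent.H152R3.KD.CORR1
import Pool.Agent.H152R3.KD.CORR2
import Pool.Agent.H152R3.KD.ETA
import Pool.Agent.H152R3.KD.FDEC
import Pool.Agent.H152R3.KD.PER
import Pool.Agent.H87R3.KD.ATOM
import Pool.Agent.H449R3.KDNT
import Pool.Agent.H152R3.KD.COB
import Pool.Agent.H152R3.KD.FC
import Pool.Agent.H152R3.KD.AMP
import Pool.Agent.H152R3.KD.BRIDGE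
import Pool.Agent.H152R3.KD.STAIR
import Pool.Agent.H594.KDCNT
import Pool.Agent.H152R3.KD.MU
import Pool.Agent.H152R3.KD.Q2

set_option autoImplicit false

namespace Pool.Agent.H152R3.KD

theorem q1 : FinalQ1 :=
  finalQ1 Pool.Agent.H676R4.KDBas.taskBAS WEYL.taskWEYL taskLIN CORR1.taskCORR1 CORR2.taskCORR2
    ETA.taskETA FDEC.taskFDEC PER.taskPER MU.taskMU Pool.Agent.H87R3.KD.taskATOM
    Pool.Agent.H449R3.KDNT.taskNT COB.taskCOB FCp.taskFC taskAMP (BRIDGE.taskBRIDGE WEYL.taskWEYL)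
    STAIR.taskSTAIR CNT.taskCNT

theorem q2 : Q2.FinalQ2 :=
  Q2.finalQ2 Pool.Agent.H676R4.KDBas.taskBAS WEYL.taskWEYL taskLIN CORR1.taskCORR1 CORR2.taskCORR2
    ETA.taskETA FDEC.taskFDEC PER.taskPER MU.taskMU Pool.Agent.H87R3.KD.taskATOM STAIR.taskSTAIR
    CNT.taskCNT

end Pool.Agent.H152R3.KD
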